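import Mathlib

/-!
Counting tools: injective maps that avoid lists, random words, small subsets, codes.
-/

namespace Pool.Agent.MP_4e8562_co.H66

open Finset

theorem exp_le_one_sub {x : ℝ} (h0 : 0 ≤ x) (h1 : 2 * x ≤ 1) : Real.exp (-(2 * x)) ≤ 1 - x := by
  have h2 : 2 * x + 1 ≤ Real.exp (2 * x) := Real.add_one_le_exp _
  rw [Real.exp_neg, inv_le_iff_one_le_mul₀ (Real.exp_pos _)]
  nlinarith [mul_nonneg h0 (sub_nonneg.mpr h1)]

section Inj

variable {ι α : Type} [Fintype ι] [DecidableEq ι] [Fintype α] [DecidableEq α]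

/-- maps that are injective on `I`, follow the lists on `I` and are constant elsewhere -/
def Tm (a0 : α) (A : ι → Finset α) (I : Finset ι) : Finset (ι → α) :=
  {f | (∀ i ∈ I, f i ∈ A i) ∧ (∀ i ∉ I, f i = a0) ∧ ∀ i ∈ I, ∀ j ∈ I, f i = f j → i = j}

theorem mem_Tm {a0 : α} {A : ι → Finset α} {I : Finset ι} {f : ι → α} : f ∈ Tm a0 A I ↔
    (∀ i ∈ I, f i ∈ A i) ∧ (∀ i ∉ I, f i = a0) ∧ ∀ i ∈ I, ∀ j ∈ I, f i = f j → i = j := by
  simp [Tm]

theorem Tm_insert (a0 : α) (A : ι → Finset α) {I : Finset ι} {i : ι} (hi : i ∉ I) :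
    #(Tm a0 A (insert i I)) = ∑ g ∈ Tm a0 A I, #(A i \ I.image g) := by
  have hne : ∀ j ∈ I, j ≠ i := fun j hj h => hi (h ▸ hj)
  rw [card_eq_sum_card_fiberwise (f := fun f => Function.update f i a0) (t := Tm a0 A I)]
  · refine sum_congr rfl fun g hg => ?_
    obtain ⟨g1, g2, g3⟩ := mem_Tm.mp hg
    refine card_bij (fun f _ => f i) ?_ ?_ ?_
    · intro f hf
      obtain ⟨hf1, hf2⟩ := mem_filter.mp hf
      obtain ⟨f1, -, f3⟩ := mem_Tm.mp hf1
      refine mem_sdiff.mpr ⟨f1 i (mem_insert_self _ _), fun h => ?_⟩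
      obtain ⟨j, hj, e⟩ := mem_image.mp h
      rw [← hf2, Function.update_of_ne (hne j hj)] at e
      exact hne j hj (f3 j (mem_insert_of_mem hj) i (mem_insert_self _ _) e)
    · intro f hf f' hf' e
      have h1 := (mem_filter.mp hf).2.trans (mem_filter.mp hf').2.symm
      funext j
      by_cases hj : j = i
      · rw [hj]
        exact e
      · have := congrFun h1 j
        simpa [Function.update_of_ne hj] using this
    · intro x hx
      obtain ⟨x1, x2⟩ := mem_sdiff.mp hx
      refine ⟨Function.update g i x, mem_filter.mpr ⟨mem_Tm.mpr ⟨?_, ?_, ?_⟩, ?_⟩, by simp⟩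
      · intro j hj
        rcases mem_insert.mp hj with rfl | hj
        · simpa using x1
        · rw [Function.update_of_ne (hne j hj)]
          exact g1 j hj
      · intro j hj
        rw [mem_insert, not_or] at hj
        rw [Function.update_of_ne hj.1]
        exact g2 j hj.2
      · intro j hj k hk e
        rcases mem_insert.mp hj with rfl | hj' <;> rcases mem_insert.mp hk with rfl | hk'
        · rfl
        · rw [Function.update_self, Function.update_of_ne (hne k hk')] at e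
          exact absurd (mem_image.mpr ⟨k, hk', e.symm⟩) x2
        · rw [Function.update_self, Function.update_of_ne (hne j hj')] at e
          exact absurd (mem_image.mpr ⟨j, hj', e⟩) x2
        · rw [Function.update_of_ne (hne j hj'), Function.update_of_ne (hne k hk')] at e
          exact g3 j hj' k hk' e
      · rw [Function.update_idem, ← g2 i hi, Function.update_eq_self]
  · intro f hf
    obtain ⟨f1, f2, f3⟩ := mem_Tm.mp hf
    show Function.update f i a0 ∈ Tm a0 A I
    refine mem_Tm.mpr ⟨fun j hj => ?_, fun j hj => ?_, fun j hj k hk e => ?_⟩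
    · rw [Function.update_of_ne (hne j hj)]
      exact f1 j (mem_insert_of_mem hj)
    · by_cases h : j = i
      · rw [h, Function.update_self]
      · rw [Function.update_of_ne h]
        exact f2 j (by simp [h, hj])
    · rw [Function.update_of_ne (hne j hj), Function.update_of_ne (hne k hk)] at e
      exact f3 j (mem_insert_of_mem hj) k (mem_insert_of_mem hk) e

theorem Tm_image {a0 : α} {A : ι → Finset α} {I : Finset ι} {g : ι → α} (hg : g ∈ Tm a0 A I) :
    #(I.image g) = #I :=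
  card_image_of_injOn fun i hi j hj e => (mem_Tm.mp hg).2.2 i hi j hj e

theorem Tm_ratio (a0 : α) (J : ι → Finset α) (D : ℝ) (hD0 : 0 < D)
    (hD : D + Fintype.card ι ≤ Fintype.card α) (hJ : ∀ i, 2 * (#(J i) : ℝ) ≤ D) (I : Finset ι) :
    Real.exp (-(2 * (∑ i ∈ I, (#(J i) : ℝ)) / D)) * #(Tm a0 (fun _ => univ) I) ≤
      #(Tm a0 (fun i => (J i)ᶜ) I) ∧ 0 < #(Tm a0 (fun _ => univ) I) := by
  induction I using Finset.induction_on with
  | empty =>
    have : ∀ A : ι → Finset α, Tm a0 A ∅ = {fun _ => a0} := by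
      intro A
      ext f
      simp [mem_Tm, funext_iff]
    simp [this]
  | @insert i I hi ih =>
    obtain ⟨ih1, ih2⟩ := ih
    have hI : (#I : ℝ) ≤ Fintype.card ι := by exact_mod_cast card_le_univ I
    have e1 : (#(Tm a0 (fun _ => univ) (insert i I)) : ℝ) =
        #(Tm a0 (fun _ => univ) I) * (Fintype.card α - #I) := by
      rw [Tm_insert a0 _ hi, Nat.cast_sum, sum_congr rfl (g := fun _ => (Fintype.card α - #I : ℝ))]
      · rw [sum_const, nsmul_eq_mul]
      · intro g hg
        rw [card_sdiff_of_subset (subset_univ _), Nat.cast_sub (card_le_card (subset_univ _)),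
          Tm_image hg, card_univ]
    have e2 : (#(Tm a0 (fun i => (J i)ᶜ) I) : ℝ) * (Fintype.card α - #I - #(J i)) ≤
        #(Tm a0 (fun i => (J i)ᶜ) (insert i I)) := by
      rw [Tm_insert a0 _ hi, Nat.cast_sum, ← nsmul_eq_mul]
      refine card_nsmul_le_sum _ _ _ fun g hg => ?_
      have h1 := le_card_sdiff (I.image g) (J i)ᶜ
      rw [Tm_image hg, card_compl] at h1
      have h2 : Fintype.card α ≤ #((J i)ᶜ \ I.image g) + #I + #(J i) := by omega
      have h3 : (Fintype.card α : ℝ) ≤ #((J i)ᶜ \ I.image g) + #I + #(J i) := by exact_mod_cast h2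
      linarith
    have hx0 : (0 : ℝ) ≤ #(J i) / D := by positivity
    have hx1 : 2 * ((#(J i) : ℝ) / D) ≤ 1 := by
      rw [← mul_div_assoc, div_le_one hD0]
      exact hJ i
    have e3 : Real.exp (-(2 * ((#(J i) : ℝ) / D))) * (Fintype.card α - #I) ≤
        Fintype.card α - #I - #(J i) := by
      have h1 := mul_le_mul_of_nonneg_right (exp_le_one_sub hx0 hx1)
        (by linarith : (0 : ℝ) ≤ Fintype.card α - #I)
      have h2 : (#(J i) : ℝ) / D * D = #(J i) := by field_simp
      nlinarith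
    refine ⟨?_, ?_⟩
    · have e4 : Real.exp (-(2 * (∑ j ∈ insert i I, (#(J j) : ℝ)) / D)) =
          Real.exp (-(2 * (∑ j ∈ I, (#(J j) : ℝ)) / D)) * Real.exp (-(2 * ((#(J i) : ℝ) / D))) := by
        rw [← Real.exp_add, sum_insert hi]
        congr 1
        ring
      rw [e4, e1]
      refine le_trans ?_ e2
      have h5 : (0 : ℝ) ≤ Real.exp (-(2 * ((#(J i) : ℝ) / D))) * (Fintype.card α - #I) :=
        mul_nonneg (Real.exp_pos _).le (by linarith)
      calc _ = (Real.exp (-(2 * (∑ j ∈ I, (#(J j) : ℝ)) / D)) * #(Tm a0 (fun _ => univ) I)) *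
            (Real.exp (-(2 * ((#(J i) : ℝ) / D))) * (Fintype.card α - #I)) := by ring
        _ ≤ _ := mul_le_mul ih1 e3 h5 (Nat.cast_nonneg _)
    · have : (0 : ℝ) < #(Tm a0 (fun _ => univ) (insert i I)) := by
        rw [e1]
        exact mul_pos (by exact_mod_cast ih2) (by linarith)
      exact_mod_cast this

end Inj

theorem exists_words {β σ : Type} [DecidableEq β] (Ω : Finset β) (hΩ : 0 < #Ω) (𝒮 : Finset σ)
    (Good : σ → Finset β) (p : ℝ) (hG : ∀ s ∈ 𝒮, Good s ⊆ Ω ∧ p * #Ω ≤ #(Good s)) (m K : ℕ)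
    (h : #𝒮 * 2 ^ K * Real.exp (-(p * m / 2)) < 1) :
    ∃ W : Fin m → β, (∀ b, W b ∈ Ω) ∧ ∀ s ∈ 𝒮, K < #{b | W b ∈ Good s} := by
  classical
  by_contra hno
  push Not at hno
  let w : σ → β → ℝ := fun s x => if x ∈ Good s then 1 / 2 else 1
  have hw : ∀ s x, 0 ≤ w s x := fun s x => by
    simp only [w]
    split_ifs <;> norm_num
  have h1 : ∀ W ∈ Fintype.piFinset fun _ : Fin m => Ω, (1 : ℝ) ≤ ∑ s ∈ 𝒮, 2 ^ K * ∏ b, w s (W b) := by
    intro W hW
    obtain ⟨s, hs, hK⟩ := hno W (Fintype.mem_piFinset.mp hW)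
    refine le_trans ?_ (single_le_sum (f := fun s => 2 ^ K * ∏ b, w s (W b))
      (fun s _ => mul_nonneg (by positivity) (prod_nonneg fun b _ => hw _ _)) hs)
    simp only [w]
    rw [prod_ite, prod_const, prod_const_one, mul_one, one_div, inv_pow, ← div_eq_mul_inv,
      one_le_div (by positivity)]
    exact pow_le_pow_right₀ (by norm_num) hK
  have h2 : ∀ s ∈ 𝒮, ∑ x ∈ Ω, w s x ≤ #Ω * Real.exp (-(p / 2)) := by
    intro s hs
    obtain ⟨g1, g2⟩ := hG s hs
    have e : ∑ x ∈ Ω, w s x = #Ω - #(Good s) / 2 := by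
      rw [← sum_sdiff g1, sum_congr rfl (g := fun _ => (1 : ℝ)),
        sum_congr (s₁ := Good s) rfl (g := fun _ => (1 / 2 : ℝ))]
      · rw [sum_const, sum_const, card_sdiff_of_subset g1, nsmul_eq_mul, nsmul_eq_mul,
          Nat.cast_sub (card_le_card g1)]
        ring
      · intro x hx
        simp [w, hx]
      · intro x hx
        simp [w, (mem_sdiff.mp hx).2]
    have := mul_le_mul_of_nonneg_left (Real.add_one_le_exp (-(p / 2))) (Nat.cast_nonneg (α := ℝ) #Ω)
    rw [e]
    linarith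
  have h3 := sum_le_sum h1
  rw [sum_comm, sum_const, Fintype.card_piFinset, prod_const, card_univ, Fintype.card_fin,
    nsmul_eq_mul, mul_one] at h3
  have h4 : ∀ s ∈ 𝒮, ∑ W ∈ Fintype.piFinset fun _ : Fin m => Ω, 2 ^ K * ∏ b, w s (W b) ≤
      2 ^ K * (#Ω ^ m * Real.exp (-(p * m / 2))) := by
    intro s hs
    rw [← mul_sum, ← prod_univ_sum, prod_const, card_univ, Fintype.card_fin]
    refine mul_le_mul_of_nonneg_left ?_ (by positivity)
    have : Real.exp (-(p * m / 2)) = Real.exp (-(p / 2)) ^ m := by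
      rw [← Real.exp_nat_mul]
      congr 1
      ring
    rw [this, ← mul_pow]
    exact pow_le_pow_left₀ (sum_nonneg fun x _ => hw _ _) (h2 s hs) m
  have h5 := h3.trans (sum_le_sum h4)
  rw [sum_const, nsmul_eq_mul] at h5
  have h6 : (0 : ℝ) < (#Ω : ℝ) ^ m := by positivity
  push_cast at h5
  nlinarith

theorem card_small {Λ : Type} [Fintype Λ] [DecidableEq Λ] (K : ℕ) (M : ℝ) (hM : 1 ≤ M)
    (h : Fintype.card Λ ≤ M * K) :
    (#{S : Finset Λ | #S ≤ K} : ℝ) ≤ (Real.exp 1 * M) ^ K := by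
  have hM0 : 0 < M := by linarith
  have h1 : ∑ S ∈ (univ : Finset Λ).powerset, M⁻¹ ^ #S * 1 ^ (#(univ : Finset Λ) - #S) =
      (M⁻¹ + 1) ^ #(univ : Finset Λ) := sum_pow_mul_eq_add_pow _ _ _
  have h2 : (#{S : Finset Λ | #S ≤ K} : ℝ) * M⁻¹ ^ K ≤ (M⁻¹ + 1) ^ #(univ : Finset Λ) := by
    rw [← h1, ← nsmul_eq_mul]
    refine (card_nsmul_le_sum _ (fun S => M⁻¹ ^ #S * 1 ^ (#(univ : Finset Λ) - #S)) _
      fun S hS => ?_).trans (sum_le_sum_of_subset_of_nonneg (by simp) fun S _ _ => by positivity)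
    rw [one_pow, mul_one]
    exact pow_le_pow_of_le_one (by positivity) (inv_le_one_of_one_le₀ hM) (mem_filter.mp hS).2
  have h3 : (M⁻¹ + 1) ^ #(univ : Finset Λ) ≤ Real.exp 1 ^ K := by
    refine (pow_le_pow_left₀ (by positivity) (Real.add_one_le_exp _) _).trans ?_
    rw [← Real.exp_nat_mul, ← Real.exp_nat_mul, card_univ, Real.exp_le_exp, mul_one,
      ← div_eq_mul_inv, div_le_iff₀ hM0]
    linarith
  have h4 := h2.trans h3
  rw [inv_pow, ← div_eq_mul_inv, div_le_iff₀ (by positivity)] at h4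
  rwa [mul_pow]

theorem card_fibres {α β : Type} [Fintype α] [DecidableEq α] [Fintype β] [DecidableEq β]
    (S : Finset (α × β)) : (#S : ℝ) = ∑ j, (#({c | (j, c) ∈ S} : Finset β) : ℝ) := by
  rw [card_eq_sum_card_fiberwise (f := Prod.fst) (t := univ) (fun _ _ => mem_univ _), Nat.cast_sum]
  refine sum_congr rfl fun j _ => ?_
  congr 1
  refine card_bij (fun e _ => e.2) ?_ ?_ ?_
  · intro e he
    obtain ⟨e1, rfl⟩ := mem_filter.mp he
    simpa using e1
  · intro e he e' he' h
    exact Prod.ext ((mem_filter.mp he).2.trans (mem_filter.mp he').2.symm) h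
  · intro c hc
    exact ⟨(j, c), mem_filter.mpr ⟨(mem_filter.mp hc).2, rfl⟩, rfl⟩

theorem rich_card {g q : ℕ} (hq : 0 < q) (S : Finset (Fin g × Fin q)) (h : 14 * #S ≤ g * q) :
    (#{w : Fin g → Fin q | g ≤ 2 * #{j | (j, w j) ∈ S}} : ℝ) ≤ q ^ g * Real.exp (-(g / 2)) := by
  have hq0 : (0 : ℝ) < q := by exact_mod_cast hq
  let f : Fin g → Fin q → ℝ := fun j c => if (j, c) ∈ S then Real.exp 2 else 1
  have hf : ∀ j c, 0 ≤ f j c := fun j c => by
    simp only [f]
    split_ifs <;> positivity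
  have h1 : (#{w : Fin g → Fin q | g ≤ 2 * #{j | (j, w j) ∈ S}} : ℝ) * Real.exp g ≤
      ∑ w ∈ Fintype.piFinset fun _ => univ, ∏ j, f j (w j) := by
    rw [← nsmul_eq_mul]
    refine (card_nsmul_le_sum _ (fun w => ∏ j, f j (w j)) _ fun w hw => ?_).trans
      (sum_le_sum_of_subset_of_nonneg (by simp) fun w _ _ => prod_nonneg fun j _ => hf _ _)
    simp only [f]
    rw [prod_ite, prod_const, prod_const_one, mul_one, ← Real.exp_nat_mul, Real.exp_le_exp,
      mul_comm]
    exact_mod_cast (mem_filter.mp hw).2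
  have h2 : ∀ j, ∑ c, f j c ≤ q * Real.exp (7 * #({c | (j, c) ∈ S} : Finset (Fin q)) / q) := by
    intro j
    have e1 : Real.exp 2 ≤ 8 := by
      have : Real.exp 2 = Real.exp 1 * Real.exp 1 := by rw [← Real.exp_add]; norm_num
      nlinarith [Real.exp_one_lt_d9, Real.exp_pos 1]
    have e2 := mul_le_mul_of_nonneg_left
      (Real.add_one_le_exp (7 * #({c | (j, c) ∈ S} : Finset (Fin q)) / q : ℝ)) hq0.le
    have e3 : (#({c | (j, c) ∈ S} : Finset (Fin q)) : ℝ) + #({c | (j, c) ∉ S} : Finset (Fin q)) =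
        q := by
      have := card_filter_add_card_filter_not (s := (univ : Finset (Fin q))) fun c => (j, c) ∈ S
      rw [card_univ, Fintype.card_fin] at this
      exact_mod_cast this
    rw [mul_add, mul_div_cancel₀ _ hq0.ne'] at e2
    simp only [f]
    rw [sum_ite, sum_const, sum_const, nsmul_eq_mul, nsmul_eq_mul]
    nlinarith [Nat.cast_nonneg (α := ℝ) #({c | (j, c) ∈ S} : Finset (Fin q))]
  rw [← prod_univ_sum] at h1
  have h3 := h1.trans (prod_le_prod (fun j _ => sum_nonneg fun c _ => hf j c) fun j _ => h2 j)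
  rw [prod_mul_distrib, ← Real.exp_sum, ← sum_div, ← mul_sum, ← card_fibres, prod_const, card_univ,
    Fintype.card_fin, ← le_div_iff₀ (Real.exp_pos _), mul_div_assoc, ← Real.exp_sub] at h3
  refine h3.trans (mul_le_mul_of_nonneg_left (Real.exp_le_exp.mpr ?_) (by positivity))
  have h4 : (14 * #S : ℝ) ≤ g * q := by exact_mod_cast h
  have h5 : (7 * #S / q : ℝ) ≤ g / 2 := by
    rw [div_le_iff₀ hq0]
    linarith
  linarith

theorem exists_code {g q N N0 K : ℕ} (hq : 0 < q) (h1 : 14 * K ≤ g * q) (M : ℝ) (hM : 1 ≤ M)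
    (h2 : (g * q : ℕ) ≤ M * K)
    (h3 : (Real.exp 1 * M) ^ K * N ^ N0 * Real.exp (-(g / 2)) ^ N0 < 1) :
    ∃ code : Fin N → Fin g → Fin q, ∀ S : Finset (Fin g × Fin q), #S ≤ K →
      #{i | g ≤ 2 * #{j | (j, code i j) ∈ S}} < N0 := by
  by_contra hno
  push Not at hno
  let Bad : Finset (Fin g × Fin q) → Finset (Fin N) → Finset (Fin N → Fin g → Fin q) := fun S A =>
    Fintype.piFinset fun i =>
      if i ∈ A then univ.filter fun w : Fin g → Fin q => g ≤ 2 * #{j | (j, w j) ∈ S} else univ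
  have hsub : (univ : Finset (Fin N → Fin g → Fin q)) ⊆
      ({S | #S ≤ K} : Finset (Finset (Fin g × Fin q))).biUnion fun S =>
        (powersetCard N0 univ).biUnion (Bad S) := by
    intro code _
    obtain ⟨S, hS, hN⟩ := hno code
    obtain ⟨A, hA1, hA2⟩ := exists_subset_card_eq hN
    refine mem_biUnion.mpr ⟨S, mem_filter.mpr ⟨mem_univ _, hS⟩, mem_biUnion.mpr
      ⟨A, mem_powersetCard.mpr ⟨subset_univ _, hA2⟩, Fintype.mem_piFinset.mpr fun i => ?_⟩⟩
    split_ifs with hi
    · exact mem_filter.mpr ⟨mem_univ _, (mem_filter.mp (hA1 hi)).2⟩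
    · exact mem_univ _
  have hcard : ∀ S ∈ ({S | #S ≤ K} : Finset (Finset (Fin g × Fin q))),
      (#((powersetCard N0 univ).biUnion (Bad S)) : ℝ) ≤
        N ^ N0 * (((q : ℝ) ^ g) ^ N * Real.exp (-(g / 2)) ^ N0) := by
    intro S hS
    have e1 : ∀ A ∈ powersetCard N0 (univ : Finset (Fin N)), (#(Bad S A) : ℝ) ≤
        ((q : ℝ) ^ g) ^ N * Real.exp (-(g / 2)) ^ N0 := by
      intro A hA
      rw [Fintype.card_piFinset, Nat.cast_prod]
      refine (prod_le_prod (fun _ _ => Nat.cast_nonneg _)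
        (g := fun i => (q : ℝ) ^ g * if i ∈ A then Real.exp (-(g / 2)) else 1) fun i _ => ?_).trans
        (le_of_eq ?_)
      · split_ifs
        · exact rich_card hq S (le_trans (Nat.mul_le_mul_left _ (mem_filter.mp hS).2) h1)
        · simp
      · rw [prod_mul_distrib, prod_ite_mem, univ_inter, prod_const, prod_const, card_univ,
          Fintype.card_fin, (mem_powersetCard.mp hA).2]
    refine le_trans (Nat.cast_le.mpr card_biUnion_le) ?_
    rw [Nat.cast_sum]
    refine (sum_le_card_nsmul _ _ _ e1).trans ?_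
    rw [nsmul_eq_mul, card_powersetCard, card_univ, Fintype.card_fin]
    exact mul_le_mul_of_nonneg_right (by exact_mod_cast Nat.choose_le_pow N N0) (by positivity)
  have h4 := (Nat.cast_le (α := ℝ)).mpr ((card_le_card hsub).trans card_biUnion_le)
  rw [Nat.cast_sum] at h4
  have h5 := h4.trans (sum_le_card_nsmul _ _ _ hcard)
  rw [nsmul_eq_mul] at h5
  have h6 := h5.trans (mul_le_mul_of_nonneg_right (card_small K M hM (by simpa using h2))
    (by positivity))
  simp only [card_univ, Fintype.card_fun, Fintype.card_fin] at h6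
  have h7 : (0 : ℝ) < ((q : ℝ) ^ g) ^ N := by positivity
  push_cast at h6
  nlinarith

end Pool.Agent.MP_4e8562_co.H66
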