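import Mathlib
import Pool.Agent.MP_4e8562_co.H66.Count

/-!
The word system behind the lower bound.
-/

namespace Pool.Agent.MP_4e8562_co.H66

open Finset

section

variable {g g' q q' N v : ℕ} (code : Fin N → Fin g → Fin q)

/-- points that receive no coarse colour -/
def bad (u : Fin g → Fin q ⊕ Fin q') : Finset (Fin N) := {i | ∀ j, u j ≠ Sum.inl (code i j)}

/-- symbols that are still free for the coarse colour `j` -/
def free (q' : ℕ) (S : Finset (Fin g × Fin q)) (j : Fin g) : Finset (Fin q ⊕ Fin q') :=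
  ((({c | (j, c) ∈ S} : Finset (Fin q))).image Sum.inl)ᶜ

theorem free_card (hq : q ≤ q') (hq0 : 0 < q') (S : Finset (Fin g × Fin q)) :
    ((q + q' : ℕ) : ℝ) ^ g * Real.exp (-(2 * #S / (q + q' : ℕ))) ≤
      #(Fintype.piFinset (free q' S)) := by
  have hQ : (0 : ℝ) < (q + q' : ℕ) := by positivity
  rw [Fintype.card_piFinset, Nat.cast_prod, card_fibres, mul_sum, sum_div, ← sum_neg_distrib, Real.exp_sum]
  have : ((q + q' : ℕ) : ℝ) ^ g = ∏ _j : Fin g, ((q + q' : ℕ) : ℝ) := by simp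
  rw [this, ← prod_mul_distrib]
  refine prod_le_prod (fun j _ => by positivity) fun j _ => ?_
  set s := #({c | (j, c) ∈ S} : Finset (Fin q)) with hs
  have h1 : s ≤ q := (card_le_univ _).trans (by simp)
  have h2 : (#(free q' S j) : ℝ) = (q + q' : ℕ) - s := by
    rw [free, card_compl, card_image_of_injective _ Sum.inl_injective, ← hs, Nat.cast_sub]
    · simp
    · simp only [Fintype.card_sum, Fintype.card_fin]
      omega
  have h3 : 2 * ((s : ℝ) / (q + q' : ℕ)) ≤ 1 := by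
    rw [← mul_div_assoc, div_le_one hQ]
    exact_mod_cast (by omega : 2 * s ≤ q + q')
  have h4 := mul_le_mul_of_nonneg_left (exp_le_one_sub (by positivity) h3) hQ.le
  rw [h2, mul_div_assoc]
  refine h4.trans (le_of_eq ?_)
  field_simp

theorem bad_card (hq0 : 0 < q') (S : Finset (Fin g × Fin q)) (i : Fin N)
    (hi : 2 * #{j | (j, code i j) ∈ S} < g) :
    (#{u ∈ Fintype.piFinset (free q' S) | i ∈ bad code u} : ℝ) ≤
      #(Fintype.piFinset (free q' S)) * Real.exp (-(g / (2 * (q + q' : ℕ)))) := by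
  have hQ : (0 : ℝ) < (q + q' : ℕ) := by positivity
  have e1 : {u ∈ Fintype.piFinset (free q' S) | i ∈ bad code u} =
      Fintype.piFinset fun j => (free q' S j).erase (Sum.inl (code i j)) := by
    ext u
    simp only [bad, mem_filter, Fintype.mem_piFinset, mem_univ, true_and, mem_erase, forall_and]
    exact and_comm
  have e2 : ∀ j, (#((free q' S j).erase (Sum.inl (code i j))) : ℝ) ≤ #(free q' S j) *
      Real.exp (-(if (j, code i j) ∈ S then 0 else (1 : ℝ) / (q + q' : ℕ))) := by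
    intro j
    split_ifs with h
    · simpa using card_erase_le
    · have h1 : Sum.inl (code i j) ∈ free q' S j := by simpa [free] using h
      have h2 : (#(free q' S j) : ℝ) ≤ (q + q' : ℕ) := by
        exact_mod_cast (card_le_univ _).trans (by simp)
      rw [card_erase_of_mem h1, Nat.cast_sub (card_pos.mpr ⟨_, h1⟩)]
      have h3 := mul_le_mul_of_nonneg_left (Real.add_one_le_exp (-(1 / (q + q' : ℕ) : ℝ)))
        (Nat.cast_nonneg (α := ℝ) #(free q' S j))
      have h4 : (#(free q' S j) : ℝ) * (1 / (q + q' : ℕ)) ≤ 1 := by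
        rw [mul_one_div, div_le_one hQ]
        exact h2
      push_cast at h3 h4 ⊢
      linarith
  rw [e1, Fintype.card_piFinset, Fintype.card_piFinset, Nat.cast_prod, Nat.cast_prod]
  refine (prod_le_prod (fun j _ => Nat.cast_nonneg _) fun j _ => e2 j).trans ?_
  rw [prod_mul_distrib, ← Real.exp_sum]
  refine mul_le_mul_of_nonneg_left (Real.exp_le_exp.mpr ?_) (by positivity)
  rw [sum_neg_distrib, neg_le_neg_iff, sum_ite, sum_const_zero, zero_add, sum_const, nsmul_eq_mul,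
    mul_one_div, div_le_div_iff₀ (by positivity) hQ]
  have h5 := card_filter_add_card_filter_not (s := (univ : Finset (Fin g)))
    fun j => (j, code i j) ∈ S
  rw [card_univ, Fintype.card_fin] at h5
  have h6 : (g : ℝ) ≤ 2 * #{j | (j, code i j) ∉ S} := by exact_mod_cast (by omega)
  nlinarith

theorem valid_card (hq0 : 0 < q') (S : Finset (Fin g × Fin q)) {N0 : ℕ} (hv : 2 * N0 ≤ v)
    (hv0 : 0 < v) (hr : #{i | g ≤ 2 * #{j | (j, code i j) ∈ S}} < N0)
    (hN : N * Real.exp (-(g / (2 * (q + q' : ℕ)))) ≤ v / 4) :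
    (#(Fintype.piFinset (free q' S)) : ℝ) ≤
      2 * #{u ∈ Fintype.piFinset (free q' S) | #(bad code u) ≤ v} := by
  set A := Fintype.piFinset (free q' S)
  set P : Finset (Fin N) := {i | 2 * #{j | (j, code i j) ∈ S} < g} with hP
  have h1 : ∑ u ∈ A, (#{i ∈ P | i ∈ bad code u} : ℝ) ≤ #A * (v / 4) := by
    have e : ∑ u ∈ A, #{i ∈ P | i ∈ bad code u} = ∑ i ∈ P, #{u ∈ A | i ∈ bad code u} := by
      simp only [card_filter]
      exact sum_comm
    rw [← Nat.cast_sum, e, Nat.cast_sum]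
    refine (sum_le_card_nsmul _ _ _ fun i hi => bad_card code hq0 S i (mem_filter.mp hi).2).trans ?_
    have h2 : (#P : ℝ) ≤ N := by exact_mod_cast (card_le_univ P).trans (by simp)
    rw [nsmul_eq_mul, mul_left_comm]
    exact mul_le_mul_of_nonneg_left ((mul_le_mul_of_nonneg_right h2 (by positivity)).trans hN)
      (by positivity)
  have h3 : (#{u ∈ A | ¬#(bad code u) ≤ v} : ℝ) * (v / 2) ≤
      ∑ u ∈ A, (#{i ∈ P | i ∈ bad code u} : ℝ) := by
    rw [← nsmul_eq_mul]
    refine (card_nsmul_le_sum _ (fun u => (#{i ∈ P | i ∈ bad code u} : ℝ)) _ fun u hu => ?_).trans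
      (sum_le_sum_of_subset_of_nonneg (filter_subset _ _) fun _ _ _ => Nat.cast_nonneg _)
    have h4 : bad code u ⊆ {i ∈ P | i ∈ bad code u} ∪
        ({i | g ≤ 2 * #{j | (j, code i j) ∈ S}} : Finset (Fin N)) := by
      intro i hi
      by_cases h : g ≤ 2 * #{j | (j, code i j) ∈ S}
      · exact mem_union_right _ (mem_filter.mpr ⟨mem_univ _, h⟩)
      · exact mem_union_left _ (mem_filter.mpr ⟨mem_filter.mpr ⟨mem_univ _, not_le.mp h⟩, hi⟩)
    have h5 := (card_le_card h4).trans (card_union_le _ _)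
    have h6 := (mem_filter.mp hu).2
    have h7 : (v : ℝ) ≤ 2 * #{i ∈ P | i ∈ bad code u} := by exact_mod_cast (by omega)
    linarith
  have h8 : (#{u ∈ A | #(bad code u) ≤ v} : ℝ) + #{u ∈ A | ¬#(bad code u) ≤ v} = #A := by
    exact_mod_cast card_filter_add_card_filter_not _
  have h9 : (0 : ℝ) < v := by exact_mod_cast hv0
  have h10 : (#{u ∈ A | ¬#(bad code u) ≤ v} : ℝ) * 2 ≤ #A := by
    refine le_of_mul_le_mul_right ?_ h9
    linarith
  linarith

/-- the block of the point `i` in the colour `c` -/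
def lab (c : Fin g ⊕ Fin g') (i : Fin N) : Fin g × Fin q ⊕ Fin g' × Fin N :=
  Sum.map (fun j => (j, code i j)) (fun c => (c, i)) c

theorem core {N0 a K m : ℕ} (hc : ∀ S : Finset (Fin g × Fin q), #S ≤ K →
      #{i | g ≤ 2 * #{j | (j, code i j) ∈ S}} < N0)
    (hq : q ≤ q') (hq0 : 0 < q') (hg : g ≤ g')
    (hv : 2 * N0 ≤ v) (hvg : 2 * v ≤ g) (ha : 4 * a ≤ g)
    (hN : N * Real.exp (-(g / (2 * (q + q' : ℕ)))) ≤ v / 4) (M : ℝ) (hM : 1 ≤ M)
    (hM' : (g * q + g' * N : ℕ) ≤ M * K)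
    (hm : (Real.exp 1 * M) ^ K * 2 ^ K *
      Real.exp (-(Real.exp (-(2 * K / (q + q' : ℕ) + 4 * K / g)) / 2 * m / 2)) < 1) :
    ∃ W : Fin m → Fin N → Fin g ⊕ Fin g',
      (∀ b i i', W b i = W b i' → lab code (W b i) i = lab code (W b i) i') ∧
      ∀ S : Finset (Fin g × Fin q ⊕ Fin g' × Fin N), #S ≤ K →
        (∀ i, #{c | Sum.inr (c, i) ∈ S} ≤ a) → K < #{b | ∀ i, lab code (W b i) i ∉ S} := by
  classical
  have hN0 : 0 < N0 := lt_of_le_of_lt (Nat.zero_le _) (hc ∅ (Nat.zero_le _))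
  have hv0 : 0 < v := by omega
  have hgR : (0 : ℝ) < g := by exact_mod_cast (by omega : 0 < g)
  have hex : ∀ u : Fin g → Fin q ⊕ Fin q', ∃ e : Fin N → Fin v, #(bad code u) ≤ v →
      ∀ i ∈ bad code u, ∀ i' ∈ bad code u, e i = e i' → i = i' := by
    intro u
    by_cases h : #(bad code u) ≤ v
    · obtain ⟨f⟩ := Function.Embedding.nonempty_of_card_le (α := bad code u) (β := Fin v)
        (by simpa using h)
      refine ⟨fun i => if hi : i ∈ bad code u then f ⟨i, hi⟩ else ⟨0, hv0⟩, fun _ i hi i' hi' e => ?_⟩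
      simp only [dif_pos hi, dif_pos hi'] at e
      exact congrArg Subtype.val (f.injective e)
    · exact ⟨fun _ => ⟨0, hv0⟩, fun h' => absurd h' h⟩
  choose e he using hex
  let a0 : Fin g' := ⟨0, by omega⟩
  let B := Tm a0 (fun _ : Fin v => univ) univ
  let Ω := ({u | #(bad code u) ≤ v} : Finset (Fin g → Fin q ⊕ Fin q')) ×ˢ B
  let word : (Fin g → Fin q ⊕ Fin q') × (Fin v → Fin g') → Fin N → Fin g ⊕ Fin g' := fun ω i =>
    if h : ∃ j, ω.1 j = Sum.inl (code i j) then Sum.inl h.choose else Sum.inr (ω.2 (e ω.1 i))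
  have hw : ∀ ω i, (∃ j, word ω i = Sum.inl j ∧ ω.1 j = Sum.inl (code i j)) ∨
      word ω i = Sum.inr (ω.2 (e ω.1 i)) ∧ i ∈ bad code ω.1 := by
    intro ω i
    by_cases h : ∃ j, ω.1 j = Sum.inl (code i j)
    · exact Or.inl ⟨h.choose, dif_pos h, h.choose_spec⟩
    · exact Or.inr ⟨dif_neg h, mem_filter.mpr ⟨mem_univ _, not_exists.mp h⟩⟩
  have hD : (g : ℝ) / 2 + Fintype.card (Fin v) ≤ Fintype.card (Fin g') := by
    have : (2 * v : ℝ) ≤ g := by exact_mod_cast hvg
    have : (g : ℝ) ≤ g' := by exact_mod_cast hg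
    simp only [Fintype.card_fin]
    linarith
  have hB : 0 < #B := (Tm_ratio a0 (fun _ => ∅) (g / 2) (by positivity) hD
    (fun _ => by simp only [card_empty, Nat.cast_zero, mul_zero]; positivity) univ).2
  let 𝒮 : Finset (Finset (Fin g × Fin q ⊕ Fin g' × Fin N)) :=
    {S | #S ≤ K ∧ ∀ i, #{c | Sum.inr (c, i) ∈ S} ≤ a}
  let Good := fun S : Finset (Fin g × Fin q ⊕ Fin g' × Fin N) =>
    {ω ∈ Ω | ∀ i, lab code (word ω i) i ∉ S}
  have hΩ : (#Ω : ℝ) ≤ ((q + q' : ℕ) : ℝ) ^ g * #B := by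
    rw [card_product, Nat.cast_mul]
    refine mul_le_mul_of_nonneg_right ?_ (Nat.cast_nonneg _)
    exact_mod_cast (card_le_univ _).trans (by simp)
  have hG : ∀ S ∈ 𝒮, ((q + q' : ℕ) : ℝ) ^ g * #B *
      (Real.exp (-(2 * K / (q + q' : ℕ) + 4 * K / g)) / 2) ≤ #(Good S) := by
    intro S hS
    obtain ⟨hS1, hS2⟩ := (mem_filter.mp hS).2
    let S1 : Finset (Fin g × Fin q) := {x | Sum.inl x ∈ S}
    have hS3 : #S1 ≤ K := le_trans (card_le_card_of_injOn Sum.inl
      (fun x hx => (mem_filter.mp hx).2) Sum.inl_injective.injOn) hS1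
    have f1 := free_card hq hq0 S1
    have f2 := valid_card code hq0 S1 hv hv0 (hc S1 hS3) hN
    set A := {u ∈ Fintype.piFinset (free q' S1) | #(bad code u) ≤ v}
    let J : (Fin g → Fin q ⊕ Fin q') → Fin v → Finset (Fin g') := fun u k =>
      {c | ∃ i ∈ bad code u, e u i = k ∧ Sum.inr (c, i) ∈ S}
    have f3 : ∀ u ∈ A, Real.exp (-(4 * K / g)) * #B ≤ #(Tm a0 (fun k => (J u k)ᶜ) univ) := by
      intro u hu
      have hu' := he u (mem_filter.mp hu).2
      refine le_trans (mul_le_mul_of_nonneg_right (Real.exp_le_exp.mpr ?_) (Nat.cast_nonneg _))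
        (Tm_ratio a0 (J u) (g / 2) (by positivity) hD (fun k => ?_) univ).1
      · have : ∑ k, #(J u k) ≤ K := by
          rw [← card_sigma]
          refine le_trans (card_le_card_of_surjOn
            (Sum.elim (fun _ => ⟨⟨0, hv0⟩, a0⟩) fun y => ⟨e u y.2, y.1⟩) fun x hx => ?_) hS1
          obtain ⟨i, -, i2, i3⟩ := (mem_filter.mp (mem_sigma.mp hx).2).2
          exact ⟨_, i3, by simp only [Sum.elim_inr, i2]⟩
        have : (∑ k, (#(J u k) : ℝ)) ≤ K := by exact_mod_cast this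
        rw [neg_le_neg_iff, div_le_div_iff₀ (by positivity) hgR]
        nlinarith
      · have : #(J u k) ≤ a := by
          by_cases h : ∃ i ∈ bad code u, e u i = k
          · obtain ⟨i, i1, i2⟩ := h
            refine le_trans (card_le_card fun c hc => ?_) (hS2 i)
            obtain ⟨i', j1, j2, j3⟩ := (mem_filter.mp hc).2
            rw [hu' i i1 i' j1 (i2.trans j2.symm)]
            exact mem_filter.mpr ⟨mem_univ _, j3⟩
          · rw [card_eq_zero.mpr]
            · exact Nat.zero_le _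
            · refine filter_eq_empty_iff.mpr fun c _ hc => ?_
              obtain ⟨i, j1, j2, -⟩ := hc
              exact h ⟨i, j1, j2⟩
        have : (4 * #(J u k) : ℝ) ≤ g := by exact_mod_cast (by omega)
        linarith
    have f4 : ∑ u ∈ A, #(Tm a0 (fun k => (J u k)ᶜ) univ) ≤ #(Good S) := by
      rw [← card_sigma]
      refine card_le_card_of_injOn (fun x => (x.1, x.2)) (fun x hx => ?_) fun x _ x' _ h => ?_
      · obtain ⟨x1, x2⟩ := mem_sigma.mp hx
        obtain ⟨x3, x4⟩ := mem_filter.mp x1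
        obtain ⟨x5, x6, x7⟩ := mem_Tm.mp x2
        refine mem_filter.mpr ⟨mem_product.mpr ⟨mem_filter.mpr ⟨mem_univ _, x4⟩,
          mem_Tm.mpr ⟨fun _ _ => mem_univ _, x6, x7⟩⟩, fun i hi => ?_⟩
        rcases hw (x.1, x.2) i with ⟨j, j1, j2⟩ | ⟨j1, j2⟩
        · have := Fintype.mem_piFinset.mp x3 j
          rw [j1] at hi
          rw [show x.1 j = _ from j2, free, mem_compl] at this
          exact this (mem_image_of_mem _ (mem_filter.mpr
            ⟨mem_univ _, mem_filter.mpr ⟨mem_univ _, hi⟩⟩))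
        · rw [j1] at hi
          exact mem_compl.mp (x5 _ (mem_univ _)) (mem_filter.mpr ⟨mem_univ _, i, j2, rfl, hi⟩)
      · rw [Prod.mk.injEq] at h
        exact Sigma.ext h.1 (heq_of_eq h.2)
    have f5 : (#A : ℝ) * (Real.exp (-(4 * K / g)) * #B) ≤ #(Good S) := by
      rw [← nsmul_eq_mul]
      exact (card_nsmul_le_sum _ _ _ f3).trans (by exact_mod_cast f4)
    have f6 : Real.exp (-(2 * K / (q + q' : ℕ))) ≤ Real.exp (-(2 * #S1 / (q + q' : ℕ))) := by
      have : (#S1 : ℝ) ≤ K := by exact_mod_cast hS3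
      rw [Real.exp_le_exp, neg_le_neg_iff]
      gcongr
    have f7 : ((q + q' : ℕ) : ℝ) ^ g * Real.exp (-(2 * K / (q + q' : ℕ))) / 2 ≤ #A := by
      have := mul_le_mul_of_nonneg_left f6 (by positivity : (0 : ℝ) ≤ ((q + q' : ℕ) : ℝ) ^ g)
      linarith
    refine le_trans (le_of_eq ?_) ((mul_le_mul_of_nonneg_right f7 (by positivity)).trans f5)
    rw [neg_add, Real.exp_add]
    ring
  have hΩ0 : 0 < #Ω := by
    have h3 := hG ∅ (by simp [𝒮])
    have h4 : (0 : ℝ) < #(Good ∅) := lt_of_lt_of_le (by positivity) h3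
    exact lt_of_lt_of_le (by exact_mod_cast h4) (card_filter_le _ _)
  obtain ⟨W, hW1, hW2⟩ := exists_words Ω hΩ0 𝒮 Good
    (Real.exp (-(2 * K / (q + q' : ℕ) + 4 * K / g)) / 2) (fun S hS => ⟨filter_subset _ _, by
      refine le_trans ?_ (hG S hS)
      rw [mul_comm]
      exact mul_le_mul_of_nonneg_right hΩ (by positivity)⟩) m K (by
      refine lt_of_le_of_lt ?_ hm
      have h5 : (#𝒮 : ℝ) ≤ #{S : Finset (Fin g × Fin q ⊕ Fin g' × Fin N) | #S ≤ K} := by
        refine Nat.cast_le.mpr (card_le_card fun S hS => ?_)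
        exact mem_filter.mpr ⟨mem_univ _, (mem_filter.mp hS).2.1⟩
      have h6 := h5.trans (card_small K M hM (by simpa using hM'))
      gcongr)
  refine ⟨fun b => word (W b), fun b i i' h => ?_, fun S hS1 hS2 => ?_⟩
  · obtain ⟨w1, w2⟩ := mem_product.mp (hW1 b)
    dsimp only at h ⊢
    rcases hw (W b) i with ⟨j, j1, j2⟩ | ⟨j1, j2⟩ <;>
      rcases hw (W b) i' with ⟨k, k1, k2⟩ | ⟨k1, k2⟩ <;> rw [j1, k1] at h
    · rw [j1]
      obtain rfl := Sum.inl.inj h
      simp only [lab, Sum.map_inl, Sum.inl.inj (j2.symm.trans k2)]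
    · exact absurd h Sum.inl_ne_inr
    · exact absurd h Sum.inr_ne_inl
    · rw [he _ (mem_filter.mp w1).2 i j2 i' k2
        ((mem_Tm.mp w2).2.2 _ (mem_univ _) _ (mem_univ _) (Sum.inr.inj h))]
  · refine (hW2 S (mem_filter.mpr ⟨mem_univ _, hS1, hS2⟩)).trans_le (card_le_card fun b hb => ?_)
    exact mem_filter.mpr ⟨mem_univ _, (mem_filter.mp (mem_filter.mp hb).2).2⟩

end

end Pool.Agent.MP_4e8562_co.H66
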