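import Mathlib
import Pool.Agent.MP_4e8562_co.H97.Defs

/-!
Monochromatic tree covers of edge-coloured graphs.
-/

namespace Pool.Agent.MP_4e8562_co.H66

open Finset Pool.Agent.MP_4e8562_co.H97

/-- The tree cover number: the least `k` such that for every `r`-colouring of the edges the
vertex set is the union of the vertex sets of at most `k` monochromatic trees. -/
noncomputable def tc {V : Type} (r : ℕ) (G : SimpleGraph V) : ℕ :=
  sInf {k | ∀ χ : G.edgeSet → Fin r, ∃ 𝒯 : Finset G.Subgraph, #𝒯 ≤ k ∧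
    (∀ T ∈ 𝒯, MonoTree G χ T) ∧ ∀ v : V, ∃ T, T ∈ 𝒯 ∧ v ∈ T.verts}

end Pool.Agent.MP_4e8562_co.H66
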