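import Mathlib
import Pool.Agent.MP_4e8562_co.H78.Lower
import Pool.Agent.MP_4e8562_co.H66.Core

/-!
The lower bound for tree partitions.
-/

namespace Pool.Agent.MP_4e8562_co.H66

open Finset Pool.Agent.MP_4e8562_co.H97 Pool.Agent.MP_4e8562_co.H78

theorem transfer {g g' q N a K n m : ℕ} (code : Fin N → Fin g → Fin q) (hr : 0 < g + g')
    (hn : n ≤ N * a) (W : Fin m → Fin N → Fin g ⊕ Fin g')
    (h1 : ∀ b i i', W b i = W b i' → lab code (W b i) i = lab code (W b i) i')
    (h2 : ∀ S : Finset (Fin g × Fin q ⊕ Fin g' × Fin N), #S ≤ K →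
      (∀ i, #{c | Sum.inr (c, i) ∈ S} ≤ a) → K < #{b | ∀ i, lab code (W b i) i ∉ S}) :
    ∃ χ : (H97.K n m).edgeSet → Fin (g + g'), ∀ k, Part (H97.K n m) χ k → K < k := by
  classical
  obtain ⟨pos⟩ := Function.Embedding.nonempty_of_card_le (α := Fin n) (β := Fin N × Fin a)
    (by simpa using hn)
  obtain ⟨χ, hχ⟩ := exists_colouring fun b x => finSumFinEquiv (W b (pos x).1)
  refine ⟨χ, fun k hk => ?_⟩
  obtain ⟨φ, hφ⟩ := lower_lab hr χ hk
  have h3 := hφ (fun x => lab code (finSumFinEquiv.symm (φ x)) (pos x).1) (by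
    intro x x' b e1 e2 e3
    rw [hχ] at e1 e2
    have e4 : W b (pos x).1 = W b (pos x').1 := finSumFinEquiv.injective (e1.trans e2.symm)
    rw [e3, ← e1, Equiv.symm_apply_apply]
    exact h1 b _ _ e4)
  by_contra hno
  have h4 := h2 (univ.image fun x => lab code (finSumFinEquiv.symm (φ x)) (pos x).1) (by omega)
    fun i => by
      have : #{x | (pos x).1 = i} ≤ a := by
        refine le_trans (card_le_card_of_injOn (t := univ) (fun x => (pos x).2)
          (fun _ _ => mem_univ _) fun x hx x' hx' e => pos.injective (Prod.ext ?_ e)) (by simp)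
        exact (mem_filter.mp hx).2.trans (mem_filter.mp hx').2.symm
      refine le_trans ?_ this
      by_cases h0 : 0 < g'
      · refine card_le_card_of_surjOn
          (fun x => Sum.elim (fun _ => ⟨0, h0⟩) id (finSumFinEquiv.symm (φ x))) fun c hc => ?_
        obtain ⟨x, -, e⟩ := mem_image.mp (mem_filter.mp hc).2
        rcases e' : finSumFinEquiv.symm (φ x) with j | j <;> rw [e'] at e
        · exact absurd e Sum.inl_ne_inr
        · obtain ⟨e1, e2⟩ := Prod.mk.inj (Sum.inr.inj e)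
          exact ⟨x, mem_filter.mpr ⟨mem_univ _, e2⟩, by simp only [e', Sum.elim_inr, id, e1]⟩
      · exact (card_le_univ _).trans (by simp; omega)
  have h5 : #{b | ∀ i, lab code (W b i) i ∉
      univ.image fun x => lab code (finSumFinEquiv.symm (φ x)) (pos x).1} ≤ av (vec χ) φ := by
    refine card_le_card fun b hb => mem_filter.mpr ⟨mem_univ _, fun x e => ?_⟩
    refine (mem_filter.mp hb).2 (pos x).1 (mem_image.mpr ⟨x, mem_univ _, ?_⟩)
    rw [← e, hχ, Equiv.symm_apply_apply]
  omega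

theorem one_le_log {x : ℝ} (hx : 0 ≤ x) : 1 ≤ Real.log (Real.exp 1 + x) := by
  rw [Real.le_log_iff_exp_le (by positivity)]
  linarith

theorem lower_num {r n m : ℕ} {C : ℝ} (hC : 1 ≤ C) (hnm : n ≤ m)
    (hA : 9000 * C * Real.log (Real.exp 1 + n / r ^ 2) ≤ r)
    (hA' : 48 * Real.log (Real.exp 1 + n / r) ≤ r)
    (hB : 408 * C * Real.log (Real.exp 1 + n / r ^ 2) ≤ Real.log (m / r)) :
    ∃ χ : (H97.K n m).edgeSet → Fin r, ∀ k, Part (H97.K n m) χ k → C * r < k := by
  have he := Real.exp_one_gt_d9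
  have he' := Real.exp_one_lt_d9
  set Λ := Real.log (Real.exp 1 + n / r) with hΛ
  set l := Real.log (Real.exp 1 + n / r ^ 2) with hl
  set L := Real.log (m / r) with hL
  have hΛ1 : 1 ≤ Λ := one_le_log (by positivity)
  have hl1 : 1 ≤ l := one_le_log (by positivity)
  have hCl : C ≤ C * l := le_mul_of_one_le_right (by linarith) hl1
  have hr : (9000 : ℝ) ≤ r := by linarith
  have hrN : 9000 ≤ r := by exact_mod_cast hr
  have hr0 : (0 : ℝ) < r := by linarith
  have hL0 : 408 ≤ L := by linarith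
  have hm0 : (0 : ℝ) < m / r := by
    by_contra h
    have : (m / r : ℝ) = 0 := le_antisymm (not_lt.mp h) (by positivity)
    rw [hL, this, Real.log_zero] at hL0
    linarith
  have hν : Real.exp L = m / r := Real.exp_log hm0
  have hν1 : (1 : ℝ) ≤ m / r := hν ▸ Real.one_le_exp (by linarith)
  obtain ⟨g, hg⟩ : ∃ g, g = r / 2 := ⟨_, rfl⟩
  obtain ⟨g', rfl⟩ : ∃ g', r = g + g' := ⟨r - g, by omega⟩
  set r := g + g' with hrg
  obtain ⟨a, ha⟩ : ∃ a, a = g / 4 := ⟨_, rfl⟩
  obtain ⟨v, hv⟩ : ∃ v, v = g / 2 := ⟨_, rfl⟩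
  obtain ⟨K, hK⟩ : ∃ K, K = ⌊C * r⌋₊ := ⟨_, rfl⟩
  obtain ⟨N, hN⟩ : ∃ N, N = n / a + 1 := ⟨_, rfl⟩
  obtain ⟨N0, hN0⟩ : ∃ N0, N0 = v / 2 := ⟨_, rfl⟩
  obtain ⟨q, hq⟩ : ∃ q, q = 14 * K / g + 1 := ⟨_, rfl⟩
  obtain ⟨Q, hQ⟩ : ∃ Q, Q = ⌊g / (16 * l)⌋₊ := ⟨_, rfl⟩
  have g1 : (r : ℝ) ≤ 3 * g := by exact_mod_cast (by omega)
  have g0 : (0 : ℝ) < g := by linarith
  have a1 : (r : ℝ) ≤ 16 * a := by exact_mod_cast (by omega)
  have v1 : (r : ℝ) ≤ 8 * v := by exact_mod_cast (by omega)
  have K1 : (K : ℝ) ≤ C * r := hK ▸ Nat.floor_le (by positivity)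
  have K2 : C * r < K + 1 := hK ▸ Nat.lt_floor_add_one _
  have N1 : (N : ℝ) ≤ 16 * (n / r) + 1 := by
    have h1 : ((n / a : ℕ) : ℝ) ≤ n / a := Nat.cast_div_le
    have h2 : (n / a : ℝ) ≤ 16 * (n / r) := by
      rw [← mul_div_assoc, div_le_div_iff₀ (by linarith) hr0]
      nlinarith [Nat.cast_nonneg (α := ℝ) n]
    rw [hN]
    push_cast
    linarith
  have N2 : n ≤ N * a := by
    rw [hN, mul_comm]
    exact (Nat.lt_mul_div_succ n (by omega)).le
  have K3 : C * r / 2 ≤ K := by nlinarith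
  have g2 : (2 * g : ℝ) ≤ r := by exact_mod_cast (by omega)
  have M1 : (q : ℝ) ≤ 43 * C := by
    have h1 : ((14 * K / g : ℕ) : ℝ) ≤ (14 * K : ℕ) / g := Nat.cast_div_le
    have h2 : ((14 * K : ℕ) / g : ℝ) ≤ 42 * C := by
      rw [div_le_iff₀ g0]
      push_cast
      nlinarith
    rw [hq]
    push_cast at h1 h2 ⊢
    linarith
  have M0 : 0 < q := hq ▸ Nat.succ_pos _
  have M2 : 14 * K ≤ g * q := hq ▸ (Nat.lt_mul_div_succ _ (by omega)).le
  have M3 : (r : ℝ) ≤ 16 * N0 := by exact_mod_cast (by omega)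
  have Q1 : (Q : ℝ) ≤ g / (16 * l) := hQ ▸ Nat.floor_le (by positivity)
  have Q2 : g / (16 * l) < Q + 1 := hQ ▸ Nat.lt_floor_add_one _
  have Q3 : 172 * C ≤ g / (16 * l) := by
    rw [le_div_iff₀ (by positivity)]
    linarith
  have Q4 : 2 * q ≤ Q := by exact_mod_cast (by linarith : (2 * q : ℝ) ≤ Q)
  have Q5 : (1 : ℝ) ≤ Q := by linarith
  have Q0 : (0 : ℝ) < Q := by linarith
  obtain ⟨q', hq'⟩ : ∃ q', Q = q + q' := ⟨Q - q, by omega⟩
  obtain ⟨code, hc⟩ := exists_code (N := N) (N0 := N0) M0 M2 43 (by norm_num)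
    (by
      have := mul_le_mul_of_nonneg_left M1 g0.le
      have := mul_le_mul_of_nonneg_left g2 (by linarith : 0 ≤ C)
      push_cast
      linarith)
    (by
      have h1 : (N : ℝ) ≤ Real.exp (g / 4) := by
        have h2 : (N : ℝ) ≤ Real.exp 1 ^ 3 * Real.exp Λ := by
          rw [hΛ, Real.exp_log (by positivity)]
          have h3 : (2.7 : ℝ) ^ 3 ≤ Real.exp 1 ^ 3 := pow_le_pow_left₀ (by norm_num) (by linarith) 3
          have h4 : (0 : ℝ) ≤ n / r := by positivity
          nlinarith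
        refine h2.trans ?_
        rw [← Real.exp_nat_mul, ← Real.exp_add, Real.exp_le_exp]
        push_cast
        linarith
      have h2 : Real.exp 1 * 43 ≤ Real.exp 5 := by
        have : Real.exp 5 = Real.exp 1 * Real.exp 1 ^ 4 := by
          rw [← Real.exp_nat_mul, ← Real.exp_add]
          norm_num
        have h3 : (2.7 : ℝ) ^ 4 ≤ Real.exp 1 ^ 4 := pow_le_pow_left₀ (by norm_num) (by linarith) 4
        rw [this]
        exact mul_le_mul_of_nonneg_left (le_trans (by norm_num) h3) (by positivity)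
      refine lt_of_le_of_lt (mul_le_mul_of_nonneg_right (mul_le_mul
        (pow_le_pow_left₀ (by positivity) h2 K) (pow_le_pow_left₀ (by positivity) h1 N0)
        (by positivity) (by positivity)) (by positivity)) ?_
      rw [← Real.exp_nat_mul, ← Real.exp_nat_mul, ← Real.exp_nat_mul, ← Real.exp_add,
        ← Real.exp_add, Real.exp_lt_one_iff]
      have h4 : (r : ℝ) * r ≤ (16 * N0) * (3 * g) := mul_le_mul M3 g1 hr0.le (by positivity)
      have h5 : 9000 * C * r ≤ r * r := mul_le_mul_of_nonneg_right (by linarith) hr0.le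
      have h6 : 0 < C * r := by positivity
      linarith)
  obtain ⟨W, hW1, hW2⟩ := core (v := v) (a := a) (K := K) (m := m) (q' := q') (g' := g') code hc
    (by omega) (by omega) (by omega) (by omega) (by omega) (by omega)
    (by
      rw [← hq']
      have h1 : Real.exp (-(g / (2 * Q))) ≤ Real.exp (-(7 + l)) := by
        rw [Real.exp_le_exp, neg_le_neg_iff, le_div_iff₀ (by positivity)]
        rw [le_div_iff₀ (by positivity)] at Q1
        nlinarith
      have h2 : (512 : ℝ) ≤ Real.exp 7 := by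
        have : Real.exp 7 = Real.exp 1 ^ 7 := by rw [← Real.exp_nat_mul]; norm_num
        rw [this]
        exact le_trans (by norm_num) (pow_le_pow_left₀ (by norm_num : (0 : ℝ) ≤ 2.7) (by linarith) 7)
      refine (mul_le_mul_of_nonneg_left h1 (by positivity)).trans ?_
      rw [Real.exp_neg, Real.exp_add, hl, Real.exp_log (by positivity), ← div_eq_mul_inv,
        div_le_iff₀ (by positivity)]
      have h3 : (n / r : ℝ) = r * (n / r ^ 2) := by field_simp
      have h4 : (0 : ℝ) ≤ n / r ^ 2 := by positivity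
      have h5 : 512 * (Real.exp 1 + n / r ^ 2) ≤ Real.exp 7 * (Real.exp 1 + n / r ^ 2) :=
        mul_le_mul_of_nonneg_right h2 (by positivity)
      have h6 : (r / 32 : ℝ) * (512 * (Real.exp 1 + n / r ^ 2)) ≤
          v / 4 * (Real.exp 7 * (Real.exp 1 + n / r ^ 2)) :=
        mul_le_mul (by linarith) h5 (by positivity) (by positivity)
      rw [h3] at N1
      nlinarith)
    (1000 * (m / r)) (by linarith)
    (by
      have h1 : (g : ℝ) ≤ r := by exact_mod_cast (by omega)
      have h2 : (g' : ℝ) ≤ r := by exact_mod_cast (by omega)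
      have h3 : (n / r : ℝ) ≤ m / r := by gcongr
      have h4 : (g : ℝ) * q ≤ r * (43 * C) := mul_le_mul h1 M1 (by positivity) hr0.le
      have h5 : (g' : ℝ) * N ≤ r * (17 * (m / r)) := mul_le_mul h2 (by linarith) (by positivity) hr0.le
      have h7 := mul_le_mul_of_nonneg_left K3 (by linarith : (0 : ℝ) ≤ 1000 * (m / r))
      have h8 : C * r ≤ m / r * (C * r) := le_mul_of_one_le_left (by positivity) hν1
      have h9 : r * (m / r) ≤ m / r * (C * r) := by nlinarith
      push_cast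
      nlinarith)
    (by
      rw [← hq']
      have h1 : 2 * (K : ℝ) / Q + 4 * K / g ≤ L / 2 := by
        have h2 : 2 * (K : ℝ) / Q ≤ 192 * (C * l) := by
          rw [div_le_iff₀ Q0]
          rw [div_lt_iff₀ (by positivity)] at Q2
          have h3 : (g : ℝ) ≤ 32 * l * Q := by nlinarith
          nlinarith
        have h3 : 4 * (K : ℝ) / g ≤ 12 * C := by
          rw [div_le_iff₀ g0]
          nlinarith
        nlinarith
      have h2 : Real.exp 1 * (1000 * (m / r)) * 2 ≤ Real.exp (L + 9) := by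
        have : Real.exp 9 = Real.exp 1 ^ 9 := by rw [← Real.exp_nat_mul]; norm_num
        have h3 : (2.7 : ℝ) ^ 9 ≤ Real.exp 1 ^ 9 := pow_le_pow_left₀ (by norm_num) (by linarith) 9
        rw [Real.exp_add, hν, this]
        nlinarith
      have h3 : L ^ 2 / 8 * r ≤ Real.exp (-(2 * (K : ℝ) / Q + 4 * K / g)) * m := by
        have h4 := Real.pow_div_factorial_le_exp (L / 2) (by linarith) 2
        have h5 : Real.exp (L / 2) ≤ Real.exp (-(2 * (K : ℝ) / Q + 4 * K / g)) * (m / r) := by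
          rw [← hν, ← Real.exp_add, Real.exp_le_exp]
          linarith
        rw [← mul_div_assoc, le_div_iff₀ hr0] at h5
        refine le_trans (mul_le_mul_of_nonneg_right (le_trans (le_of_eq ?_) h4) hr0.le) h5
        norm_num [Nat.factorial]
        ring
      rw [← mul_pow]
      refine lt_of_le_of_lt (mul_le_mul_of_nonneg_right
        (pow_le_pow_left₀ (by positivity) h2 K) (Real.exp_pos _).le) ?_
      rw [← Real.exp_nat_mul, ← Real.exp_add, Real.exp_lt_one_iff]
      have h6 : (K : ℝ) * (L + 9) ≤ C * r * (L + 9) := mul_le_mul_of_nonneg_right K1 (by linarith)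
      have h7 : C * (L + 9) < L ^ 2 / 32 := by nlinarith
      nlinarith)
  obtain ⟨χ, hχ⟩ := transfer code (by omega) N2 W hW1 hW2
  refine ⟨χ, fun k hk => K2.trans_le ?_⟩
  exact_mod_cast hχ k hk

end Pool.Agent.MP_4e8562_co.H66
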