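import Mathlib
import Pool.Agent.MP_4e8562_co.H97.Upper
import Pool.Agent.MP_4e8562_co.H97.Kernel
import Pool.Agent.MP_4e8562_co.H66.Defs
import Pool.Agent.MP_4e8562_co.H66.Lower

/-!
Covers against partitions.
-/

namespace Pool.Agent.MP_4e8562_co.H66

open Finset Pool.Agent.MP_4e8562_co.H97 Pool.Agent.MP_4e8562_co.H78

theorem star_tree {V : Type} {r : ℕ} (G : SimpleGraph V) (χ : G.edgeSet → Fin r) (z : V)
    (i : Fin r) : ∃ T : G.Subgraph, MonoTree G χ T ∧
      T.verts = {v | v = z ∨ ∃ he : G.Adj v z, χ ⟨s(v, z), he⟩ = i} := by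
  classical
  refine exists_tree G χ _ i z (Or.inl rfl) (fun _ => z) (fun v => if v = z then 0 else 1) ?_
  rintro v (hv | hv) hvz
  · exact absurd hv hvz
  · exact ⟨Or.inl rfl, by simp [hvz], hv⟩

theorem tc_le {n m r : ℕ} (hn : 0 < n) (hm : 0 < m) : tc r (K n m) ≤ 2 * r := by
  classical
  refine Nat.sInf_le fun χ => ?_
  choose T h1 h2 using star_tree (K n m) χ
  refine ⟨univ.image (T (Sum.inl ⟨0, hn⟩)) ∪ univ.image (T (Sum.inr ⟨0, hm⟩)), ?_, ?_, ?_⟩
  · refine (card_union_le _ _).trans ((add_le_add card_image_le card_image_le).trans ?_)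
    simp [two_mul]
  · intro S hS
    rcases mem_union.mp hS with h | h <;> obtain ⟨i, -, rfl⟩ := mem_image.mp h <;> exact h1 _ _
  · rintro (a | b)
    · refine ⟨_, mem_union_right _ (mem_image_of_mem _ (mem_univ (vec χ ⟨0, hm⟩ a))), ?_⟩
      rw [h2]
      exact Or.inr (edge1 χ a _ rfl)
    · refine ⟨_, mem_union_left _ (mem_image_of_mem _ (mem_univ (vec χ b ⟨0, hn⟩))), ?_⟩
      rw [h2]
      exact Or.inr (edge2 χ _ b rfl)

theorem tp_part {n m r : ℕ} (hr : 0 < r) (χ : (K n m).edgeSet → Fin r) :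
    Part (K n m) χ (tp r (K n m)) :=
  Nat.sInf_mem (s := {k | ∀ χ : (K n m).edgeSet → Fin r, Part (K n m) χ k})
    ⟨n + m, fun χ => (star_part hr χ fun _ => ⟨0, hr⟩).mono
      (Nat.add_le_add_left ((card_le_univ _).trans (by simp)) _)⟩ χ

theorem tp_gt {r n m : ℕ} {C : ℝ} (hr : 0 < r) (hC : 1 ≤ C) (hnm : n ≤ m)
    (hA : 9000 * C * Real.log (Real.exp 1 + n / r ^ 2) ≤ r)
    (hA' : 48 * Real.log (Real.exp 1 + n / r) ≤ r)
    (hB : 408 * C * Real.log (Real.exp 1 + n / r ^ 2) ≤ Real.log (m / r)) :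
    C * r < tp r (K n m) := by
  obtain ⟨χ, hχ⟩ := lower_num hC hnm hA hA' hB
  exact hχ _ (tp_part hr χ)

theorem tp_large {r n m : ℕ} (hr : 2 ≤ r) : m / r ^ n ≤ tp r (K n m) := by
  obtain ⟨W, hW⟩ := Psi_spec (by omega : 0 < r) n m
  obtain ⟨χ, hχ⟩ := exists_colouring W
  obtain ⟨c, hc⟩ := lower_part (by omega) χ (tp_part (by omega) χ)
  have h1 := Psi_ge (n := n) (by omega : 0 < r) m
  have h2 : m / r ^ n ≤ (r - 1) ^ n * (m / r ^ n) :=
    Nat.le_mul_of_pos_left _ (pow_pos (by omega) _)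
  have h3 := hW c
  rw [hχ] at hc
  omega

theorem log_sq_le {r n : ℕ} (hr : 0 < r) :
    Real.log (Real.exp 1 + n / r ^ 2) ≤ Real.log (Real.exp 1 + n / r) := by
  have hr0 : (1 : ℝ) ≤ r := by exact_mod_cast hr
  refine Real.log_le_log (by positivity) (add_le_add_right ?_ _)
  exact div_le_div_of_nonneg_left (by positivity) (by linarith) (by nlinarith)

theorem separation (t : ℕ) : ∃ C : ℕ, 0 < C ∧ ∀ r n m : ℕ, 2 ≤ r → 1 ≤ n → n ≤ m →
    (C ≤ r ∧ (n : ℝ) ≤ Real.exp (r / C) ∧ r * (Real.exp 1 + n / r ^ 2) ^ C ≤ m ∨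
      C * r ^ (n + 1) ≤ m) → t * tc r (K n m) < tp r (K n m) := by
  refine ⟨40000 * (t + 1), by omega, fun r n m hr hn hnm h => ?_⟩
  have h0 : t * tc r (K n m) ≤ t * (2 * r) := Nat.mul_le_mul_left _ (tc_le hn (by omega))
  refine h0.trans_lt ?_
  rcases h with ⟨h1, h2, h3⟩ | h1
  · have ht : (0 : ℝ) ≤ t := Nat.cast_nonneg t
    have hr0 : (2 : ℝ) ≤ r := by exact_mod_cast hr
    have h1' : (40000 * (t + 1) : ℝ) ≤ r := by exact_mod_cast h1
    have h4 : (2 * (t + 1) : ℝ) * r < tp r (K n m) := by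
      push_cast at h2
      have h5 : (1 : ℝ) ≤ r / (40000 * (t + 1)) := by rwa [one_le_div (by positivity)]
      have h6 : Real.log (Real.exp 1 + n / r) ≤ 2 * (r / (40000 * (t + 1))) := by
        rw [Real.log_le_iff_le_exp (by positivity), two_mul, Real.exp_add]
        have h7 := Real.exp_le_exp.mpr h5
        have h8 : (n / r : ℝ) ≤ n := div_le_self (by positivity) (by linarith)
        nlinarith [Real.exp_one_gt_d9]
      have h9 := mul_le_mul_of_nonneg_left h6 (by positivity : (0 : ℝ) ≤ 9000 * (2 * (t + 1)))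
      have h10 : 9000 * (2 * (t + 1)) * (2 * (r / (40000 * (t + 1)))) = (9 / 10 : ℝ) * r := by
        field_simp
        ring
      have h11 := one_le_log (x := n / r) (by positivity)
      refine tp_gt (by omega) (by linarith) hnm ?_ (by nlinarith) ?_
      · have := mul_le_mul_of_nonneg_left (log_sq_le (n := n) (by omega : 0 < r))
          (by positivity : (0 : ℝ) ≤ 9000 * (2 * (t + 1)))
        linarith
      · rw [mul_comm, ← le_div_iff₀ (by positivity)] at h3
        have h5 := Real.log_le_log (by positivity) h3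
        rw [Real.log_pow] at h5
        have h6 := one_le_log (x := n / r ^ 2) (by positivity)
        push_cast at h5
        nlinarith
    have h5 : 2 * (t + 1) * r < tp r (K n m) := by exact_mod_cast h4
    nlinarith
  · refine lt_of_lt_of_le ?_ (tp_large hr)
    rw [pow_succ, mul_comm (r ^ n), ← mul_assoc, ← Nat.le_div_iff_mul_le (by positivity)] at h1
    nlinarith

end Pool.Agent.MP_4e8562_co.H66
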