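import Mathlib

/-!
Systems of trees of depth two and the progress lemma.
-/

namespace Pool.Agent.MP_4e8562_co.H66

open Finset

section

variable {α β : Type} [DecidableEq α] [DecidableEq β] {r : ℕ} (col : α → β → Fin r)

/-- roots `R` inside `Z` and pairs (connector, root) with connectors inside `X` -/
def Sys (X : Finset α) (Z R : Finset β) (P : Finset (α × β)) : Prop :=
  R ⊆ Z ∧ (∀ e ∈ P, e.1 ∈ X ∧ e.2 ∈ R) ∧ (∀ e ∈ P, ∀ e' ∈ P, e.1 = e'.1 → e.2 = e'.2) ∧
    ∀ e ∈ P, ∀ e' ∈ P, e.2 = e'.2 → col e.1 e.2 = col e'.1 e'.2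

/-- the points of `Z` that are not yet covered -/
def rem (Z R : Finset β) (P : Finset (α × β)) : Finset β :=
  {z ∈ Z | z ∉ R ∧ ∀ e ∈ P, col e.1 z ≠ col e.1 e.2}

variable {col}

omit [DecidableEq α] in
theorem mem_rem {Z R : Finset β} {P : Finset (α × β)} {z : β} :
    z ∈ rem col Z R P ↔ z ∈ Z ∧ z ∉ R ∧ ∀ e ∈ P, col e.1 z ≠ col e.1 e.2 := mem_filter

theorem Sys.union {X : Finset α} {Z Z' R R' : Finset β} {P P' : Finset (α × β)}
    (h : Sys col X Z R P) (h' : Sys col (X \ P.image Prod.fst) Z' R' P') (hZ : Z' ⊆ Z)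
    (hR : Disjoint R R') : Sys col X Z (R ∪ R') (P ∪ P') := by
  obtain ⟨h1, h2, h3, h4⟩ := h
  obtain ⟨k1, k2, k3, k4⟩ := h'
  have d1 : ∀ e ∈ P, ∀ e' ∈ P', e.1 ≠ e'.1 := fun e he e' he' q =>
    (mem_sdiff.mp (k2 e' he').1).2 (q ▸ mem_image_of_mem _ he)
  have d2 : ∀ e ∈ P, ∀ e' ∈ P', e.2 ≠ e'.2 := fun e he e' he' q =>
    disjoint_left.mp hR (h2 e he).2 (q ▸ (k2 e' he').2)
  refine ⟨union_subset h1 (k1.trans hZ), fun e he => ?_, fun e he e' he' q => ?_,
    fun e he e' he' q => ?_⟩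
  · rcases mem_union.mp he with he | he
    · exact ⟨(h2 e he).1, mem_union_left _ (h2 e he).2⟩
    · exact ⟨(mem_sdiff.mp (k2 e he).1).1, mem_union_right _ (k2 e he).2⟩
  · rcases mem_union.mp he with he | he <;> rcases mem_union.mp he' with he' | he'
    exacts [h3 e he e' he' q, absurd q (d1 e he e' he'), absurd q.symm (d1 e' he' e he),
      k3 e he e' he' q]
  · rcases mem_union.mp he with he | he <;> rcases mem_union.mp he' with he' | he'
    exacts [h4 e he e' he' q, absurd q (d2 e he e' he'), absurd q.symm (d2 e' he' e he),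
      k4 e he e' he' q]

theorem mem_rem_union {Z R R' : Finset β} {P P' : Finset (α × β)} {z : β} :
    z ∈ rem col Z (R ∪ R') (P ∪ P') ↔ z ∈ rem col Z R P ∧ z ∈ rem col Z R' P' := by
  simp only [mem_rem, mem_union, not_or, or_imp, forall_and]
  tauto

theorem one_tree {X Q : Finset α} {Z : Finset β} {z : β} (hz : z ∈ Z) {c : Fin r} (hQ : Q ⊆ X)
    (hc : ∀ u ∈ Q, col u z = c) : ∃ P : Finset (α × β), Sys col X Z {z} P ∧ #P ≤ #Q ∧
      ∀ y ∈ rem col Z {z} P, ∀ u ∈ Q, col u y ≠ c := by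
  refine ⟨Q.image fun u => (u, z), ⟨by simpa using hz, ?_, ?_, ?_⟩, card_image_le, ?_⟩
  · intro e he
    obtain ⟨u, hu, rfl⟩ := mem_image.mp he
    exact ⟨hQ hu, mem_singleton_self _⟩
  · intro e he e' he' _
    obtain ⟨u, hu, rfl⟩ := mem_image.mp he
    obtain ⟨u', hu', rfl⟩ := mem_image.mp he'
    rfl
  · intro e he e' he' _
    obtain ⟨u, hu, rfl⟩ := mem_image.mp he
    obtain ⟨u', hu', rfl⟩ := mem_image.mp he'
    exact (hc u hu).trans (hc u' hu').symm
  · intro y hy u hu
    rw [← hc u hu]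
    exact (mem_rem.mp hy).2.2 _ (mem_image_of_mem _ hu)

theorem greedy (Y : Finset α) (c : Fin r) (H : Finset β) {δ η : ℝ}
    (h : ∀ C ⊆ H, #C < η → δ * #Y ≤ ∑ x ∈ Y, (#{y ∈ H \ C | col x y = c} : ℝ))
    (hY : Y.Nonempty) (j : ℕ) :
    ∃ Q ⊆ Y, #Q ≤ j ∧ min η (j * δ) ≤ #{y ∈ H | ∃ u ∈ Q, col u y = c} := by
  induction j with
  | zero => exact ⟨∅, empty_subset _, le_rfl, (min_le_right _ _).trans (by simp)⟩
  | succ j ih =>
    obtain ⟨Q, q1, q2, q3⟩ := ih
    by_cases hη : η ≤ #{y ∈ H | ∃ u ∈ Q, col u y = c}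
    · exact ⟨Q, q1, by omega, (min_le_left _ _).trans hη⟩
    · have h1 := h _ (filter_subset _ _) (not_le.mp hη)
      rw [mul_comm, ← nsmul_eq_mul, ← sum_const] at h1
      obtain ⟨x, hx, h2⟩ := exists_le_of_sum_le hY h1
      refine ⟨insert x Q, insert_subset hx q1, (card_insert_le _ _).trans (by omega),
        (min_le_right _ _).trans ?_⟩
      have h3 : j * δ ≤ #{y ∈ H | ∃ u ∈ Q, col u y = c} := by
        rcases min_le_iff.mp q3 with h | h
        exacts [absurd h hη, h]
      have h4 : #{y ∈ H | ∃ u ∈ Q, col u y = c} +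
          #{y ∈ H \ {y ∈ H | ∃ u ∈ Q, col u y = c} | col x y = c} ≤
          #{y ∈ H | ∃ u ∈ insert x Q, col u y = c} := by
        rw [← card_union_of_disjoint]
        · refine card_le_card (union_subset (fun y hy => ?_) fun y hy => ?_)
          · obtain ⟨y1, u, hu, y2⟩ := mem_filter.mp hy
            exact mem_filter.mpr ⟨y1, u, mem_insert_of_mem hu, y2⟩
          · obtain ⟨y1, y2⟩ := mem_filter.mp hy
            exact mem_filter.mpr ⟨(mem_sdiff.mp y1).1, x, mem_insert_self _ _, y2⟩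
        · exact disjoint_left.mpr fun y hy hy' => (mem_sdiff.mp (mem_filter.mp hy').1).2 hy
      have h5 := (Nat.cast_le (α := ℝ)).mpr h4
      push_cast at h5 ⊢
      linarith

omit [DecidableEq α] [DecidableEq β] in
theorem swap_count (Y : Finset α) (c : Fin r) (A : Finset β) :
    ∑ x ∈ Y, (#{y ∈ A | col x y = c} : ℝ) = ∑ y ∈ A, (#{x ∈ Y | col x y = c} : ℝ) := by
  simp only [card_filter]
  push_cast
  exact sum_comm

omit [DecidableEq α] [DecidableEq β] in
theorem fibre_sum (x : α) (A : Finset β) : ∑ c, (#{y ∈ A | col x y = c} : ℝ) = #A := by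
  rw [card_eq_sum_card_fiberwise (f := col x) (s := A) (t := univ) fun _ _ => mem_univ _]
  push_cast
  rfl

theorem star_step (hr : 0 < r) {X : Finset α} {Z : Finset β} (hX : X.Nonempty) (hZ : Z.Nonempty) :
    ∃ R P, Sys col X Z R P ∧ #R ≤ 1 ∧ #P ≤ 1 ∧
      (#(rem col Z R P) : ℝ) ≤ #Z * Real.exp (-(1 / r)) := by
  obtain ⟨x, hx⟩ := hX
  have hr0 : (0 : ℝ) < r := by exact_mod_cast hr
  have hs : (0 : ℝ) < #Z := by exact_mod_cast hZ.card_pos
  have : Nonempty (Fin r) := ⟨⟨0, hr⟩⟩
  obtain ⟨c, -, hc⟩ := exists_le_of_sum_le (f := fun _ => (#Z / r : ℝ))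
    (g := fun c => (#{y ∈ Z | col x y = c} : ℝ)) univ_nonempty (by
      rw [fibre_sum, sum_const, card_univ, Fintype.card_fin, nsmul_eq_mul, mul_div_cancel₀ _ hr0.ne'])
  obtain ⟨z, hz⟩ := card_pos.mp (Nat.cast_pos.mp (lt_of_lt_of_le (by positivity) hc))
  obtain ⟨P, p1, p2, p3⟩ := one_tree (col := col) (Q := {x}) (mem_filter.mp hz).1
    (singleton_subset_iff.mpr hx) (c := c) (by simpa using (mem_filter.mp hz).2)
  refine ⟨_, P, p1, by simp, by simpa using p2, ?_⟩
  have h1 : #(rem col Z {z} P) ≤ #{y ∈ Z | ¬col x y = c} := card_le_card fun y hy =>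
    mem_filter.mpr ⟨(mem_rem.mp hy).1, p3 y hy x (mem_singleton_self _)⟩
  have h2 := card_filter_add_card_filter_not (s := Z) fun y => col x y = c
  have h3 : (#(rem col Z {z} P) : ℝ) + #{y ∈ Z | col x y = c} ≤ #Z := by exact_mod_cast (by omega)
  have h4 := mul_le_mul_of_nonneg_left (Real.add_one_le_exp (-(1 / r : ℝ))) hs.le
  have h5 : (#Z : ℝ) * (-(1 / r) + 1) = #Z - #Z / r := by ring
  linarith

variable (col) in
/-- neighbours of `z` in colour `c` -/
def nb (X : Finset α) (z : β) (c : Fin r) : Finset α := {x ∈ X | col x z = c}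

variable (col) in
/-- points with few common neighbours with `z` in colour `c` -/
noncomputable def low (q : ℝ) (X : Finset α) (Z : Finset β) (z : β) (c : Fin r) : Finset β :=
  {y ∈ Z | q ^ 3 * #{x ∈ nb col X z c | col x y = c} < #(nb col X z c)}

theorem case_a (hr : 0 < r) {q : ℕ} (hq : 1 ≤ q) {X : Finset α} {Z : Finset β} {z : β} (hz : z ∈ Z)
    {c : Fin r} (h : #Z / (q ^ 2 * r) * (#(nb col X z c) : ℝ) <
      ∑ x ∈ nb col X z c, (#{y ∈ low col q X Z z c | col x y = c} : ℝ)) :
    ∃ R P, Sys col X Z R P ∧ #R ≤ 1 ∧ #P ≤ q ^ 3 ∧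
      (#(rem col Z R P) : ℝ) ≤ #Z * Real.exp (-(q / 2 / r)) := by
  have hr0 : (0 : ℝ) < r := by exact_mod_cast hr
  have hq0 : (0 : ℝ) < q := by exact_mod_cast hq
  have hY : (nb col X z c).Nonempty := by
    by_contra h0
    rw [not_nonempty_iff_eq_empty.mp h0] at h
    simp at h
  obtain ⟨Q, q1, q2, q3⟩ := greedy (col := col) (nb col X z c) c (low col q X Z z c)
    (δ := #Z / (2 * q ^ 2 * r)) (η := #Z * q / (2 * r)) (fun C hC hη => by
      have h1 : ∑ x ∈ nb col X z c, (#{y ∈ low col q X Z z c | col x y = c} : ℝ) =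
          ∑ x ∈ nb col X z c, (#{y ∈ low col q X Z z c \ C | col x y = c} : ℝ) +
            ∑ y ∈ C, (#{x ∈ nb col X z c | col x y = c} : ℝ) := by
        rw [swap_count _ c (low col q X Z z c), swap_count _ c (low col q X Z z c \ C),
          sum_sdiff hC]
      have h2 : ∑ y ∈ C, (#{x ∈ nb col X z c | col x y = c} : ℝ) ≤
          #C * (#(nb col X z c) / q ^ 3) := by
        rw [← nsmul_eq_mul]
        refine sum_le_card_nsmul _ _ _ fun y hy => ?_
        rw [le_div_iff₀ (by positivity), mul_comm]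
        exact (mem_filter.mp (hC hy)).2.le
      have h3 := mul_le_mul_of_nonneg_right hη.le
        (by positivity : (0 : ℝ) ≤ #(nb col X z c) / q ^ 3)
      have h4 : #Z * q / (2 * r) * (#(nb col X z c) / q ^ 3 : ℝ) =
          #Z / (2 * q ^ 2 * r) * #(nb col X z c) := by field_simp
      have h5 : #Z / (q ^ 2 * r) * (#(nb col X z c) : ℝ) =
          2 * (#Z / (2 * q ^ 2 * r) * #(nb col X z c)) := by field_simp
      linarith) hY (q ^ 3)
  obtain ⟨P, p1, p2, p3⟩ := one_tree (col := col) hz (q1.trans (filter_subset _ _)) (c := c)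
    fun u hu => (mem_filter.mp (q1 hu)).2
  refine ⟨_, P, p1, by simp, p2.trans q2, ?_⟩
  have h1 : ((q ^ 3 : ℕ) : ℝ) * (#Z / (2 * q ^ 2 * r)) = #Z * q / (2 * r) := by
    push_cast
    field_simp
  rw [h1, min_self] at q3
  have h2 : #(rem col Z {z} P) + #{y ∈ low col q X Z z c | ∃ u ∈ Q, col u y = c} ≤ #Z := by
    rw [← card_union_of_disjoint]
    · exact card_le_card (union_subset (filter_subset _ _)
        ((filter_subset _ _).trans (filter_subset _ _)))
    · refine disjoint_left.mpr fun y hy hy' => ?_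
      obtain ⟨u, hu, e⟩ := (mem_filter.mp hy').2
      exact p3 y hy u hu e
  have h3 := (Nat.cast_le (α := ℝ)).mpr h2
  have h4 := mul_le_mul_of_nonneg_left (Real.add_one_le_exp (-(q / 2 / r : ℝ)))
    (Nat.cast_nonneg (α := ℝ) #Z)
  have h5 : (#Z : ℝ) * (-(q / 2 / r) + 1) = #Z - #Z * q / (2 * r) := by ring
  push_cast at h3
  linarith

theorem many_trees {q : ℕ} (hq : 1 ≤ q) {X : Finset α} {Z : Finset β} (x : α) (root : Fin r → β)
    (C : Finset (Fin r)) (hC : ∀ c ∈ C, root c ∈ Z ∧ col x (root c) = c ∧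
      4 * q ^ 7 * r ≤ #(nb col X (root c) c)) :
    ∃ R P, Sys col X Z R P ∧ R ⊆ C.image root ∧ #P ≤ #C * (2 * q ^ 4) ∧ ∀ c ∈ C,
      (#{y ∈ rem col Z R P | col x y = c} : ℝ) ≤ #{y ∈ Z | col x y = c} / q +
        #{y ∈ low col q X Z (root c) c | col x y = c} := by
  have hq0 : (0 : ℝ) < q := by exact_mod_cast hq
  induction C using Finset.induction_on with
  | empty => exact ⟨∅, ∅, ⟨empty_subset _, by simp, by simp, by simp⟩, by simp, by simp, by simp⟩
  | @insert c C hc ih =>
    obtain ⟨R, P, s1, s2, s3, s4⟩ := ih fun c' h => hC c' (mem_insert_of_mem h)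
    obtain ⟨c1, c2, c3⟩ := hC c (mem_insert_self _ _)
    set z := root c
    set H := {y ∈ Z \ low col q X Z z c | col x y = c}
    have hP : #(P.image Prod.fst) ≤ r * (2 * q ^ 4) := card_image_le.trans
      (s3.trans (Nat.mul_le_mul_right _ ((card_le_univ C).trans (by simp))))
    have hP' : (#(P.image Prod.fst) : ℝ) ≤ #(nb col X z c) / (2 * q ^ 3) := by
      have h1 : (#(P.image Prod.fst) : ℝ) ≤ r * (2 * q ^ 4) := by exact_mod_cast hP
      have h2 : (4 * q ^ 7 * r : ℝ) ≤ #(nb col X z c) := by exact_mod_cast c3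
      rw [le_div_iff₀ (by positivity)]
      nlinarith [mul_le_mul_of_nonneg_right h1 (by positivity : (0 : ℝ) ≤ 2 * q ^ 3)]
    have hY : (nb col X z c \ P.image Prod.fst).Nonempty := by
      have h1 := le_card_sdiff (P.image Prod.fst) (nb col X z c)
      have h2 : q ^ 4 ≤ q ^ 7 := Nat.pow_le_pow_right hq (by norm_num)
      have h3 : 0 < q ^ 7 * r := Nat.mul_pos (by positivity) c.pos
      have h4 : r * (2 * q ^ 4) ≤ 2 * (q ^ 7 * r) := by nlinarith
      rw [mul_assoc] at c3
      exact card_pos.mp (by omega)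
    obtain ⟨Q, q1, q2, q3⟩ := greedy (col := col) (nb col X z c \ P.image Prod.fst) c H
      (δ := #H / (2 * q ^ 4)) (η := #H - #H / q) (fun D hD hη => by
        rw [swap_count]
        have h1 : (#(H \ D) : ℝ) * (#(nb col X z c) / (2 * q ^ 3)) ≤
            ∑ y ∈ H \ D, (#{u ∈ nb col X z c \ P.image Prod.fst | col u y = c} : ℝ) := by
          rw [← nsmul_eq_mul]
          refine card_nsmul_le_sum _ _ _ fun y hy => ?_
          obtain ⟨y1, y2⟩ := mem_sdiff.mp (mem_filter.mp (mem_sdiff.mp hy).1).1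
          have h2 : (#(nb col X z c) : ℝ) / q ^ 3 ≤ #{u ∈ nb col X z c | col u y = c} := by
            rw [div_le_iff₀ (by positivity), mul_comm]
            exact not_lt.mp fun h => y2 (mem_filter.mpr ⟨y1, h⟩)
          have h3 : #{u ∈ nb col X z c | col u y = c} ≤
              #{u ∈ nb col X z c \ P.image Prod.fst | col u y = c} + #(P.image Prod.fst) := by
            refine le_trans (card_le_card fun u hu => ?_) (card_union_le _ _)
            by_cases h : u ∈ P.image Prod.fst
            · exact mem_union_right _ h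
            · exact mem_union_left _ (mem_filter.mpr
                ⟨mem_sdiff.mpr ⟨(mem_filter.mp hu).1, h⟩, (mem_filter.mp hu).2⟩)
          have h4 := (Nat.cast_le (α := ℝ)).mpr h3
          have h5 : (#(nb col X z c) : ℝ) / q ^ 3 = 2 * (#(nb col X z c) / (2 * q ^ 3)) := by
            field_simp
          push_cast at h4
          linarith
        have h6 : (#H : ℝ) / q ≤ #(H \ D) := by
          rw [card_sdiff_of_subset hD, Nat.cast_sub (card_le_card hD)]
          linarith
        have h7 : (#(nb col X z c \ P.image Prod.fst) : ℝ) ≤ #(nb col X z c) := by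
          exact_mod_cast card_le_card sdiff_subset
        refine le_trans ?_ ((mul_le_mul_of_nonneg_right h6 (by positivity)).trans h1)
        refine (mul_le_mul_of_nonneg_left h7 (by positivity)).trans (le_of_eq ?_)
        field_simp) hY (2 * q ^ 4)
    obtain ⟨P', p1, p2, p3⟩ := one_tree (col := col) (X := X \ P.image Prod.fst) c1
      (q1.trans (sdiff_subset_sdiff_left _ (filter_subset _ _))) (c := c)
      fun u hu => (mem_filter.mp (mem_sdiff.mp (q1 hu)).1).2
    refine ⟨R ∪ {z}, P ∪ P', s1.union p1 Subset.rfl (disjoint_singleton_right.mpr fun h => ?_),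
      ?_, ?_, fun c' hc' => ?_⟩
    · obtain ⟨c', h1, h2⟩ := mem_image.mp (s2 h)
      have := (hC c' (mem_insert_of_mem h1)).2.1
      rw [h2, c2] at this
      exact hc (this ▸ h1)
    · rw [image_insert, insert_eq, union_comm]
      exact union_subset_union_right s2
    · rw [card_insert_of_notMem hc, add_mul, one_mul]
      exact (card_union_le _ _).trans (add_le_add s3 (p2.trans q2))
    · rcases mem_insert.mp hc' with rfl | hc'
      · have h1 : ((2 * q ^ 4 : ℕ) : ℝ) * (#H / (2 * q ^ 4)) = #H := by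
          push_cast
          field_simp
        rw [h1, min_eq_left (sub_le_self _ (by positivity))] at q3
        have h2 : #{y ∈ rem col Z (R ∪ {z}) (P ∪ P') | col x y = c'} +
            #{y ∈ H | ∃ u ∈ Q, col u y = c'} ≤ #H + #{y ∈ low col q X Z z c' | col x y = c'} := by
          rw [← card_union_of_disjoint]
          · refine le_trans (card_le_card (union_subset (fun y hy => ?_)
              ((filter_subset _ _).trans subset_union_left))) (card_union_le _ _)
            obtain ⟨y1, y2⟩ := mem_filter.mp hy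
            by_cases h : y ∈ low col q X Z z c'
            · exact mem_union_right _ (mem_filter.mpr ⟨h, y2⟩)
            · exact mem_union_left _ (mem_filter.mpr ⟨mem_sdiff.mpr ⟨(mem_rem.mp y1).1, h⟩, y2⟩)
          · refine disjoint_left.mpr fun y hy hy' => ?_
            obtain ⟨u, hu, e⟩ := (mem_filter.mp hy').2
            exact p3 y (mem_rem_union.mp (mem_filter.mp hy).1).2 u hu e
        have h3 := (Nat.cast_le (α := ℝ)).mpr h2
        have h4 : (#H : ℝ) / q ≤ #{y ∈ Z | col x y = c'} / q := by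
          gcongr
          exact filter_subset_filter _ sdiff_subset
        push_cast at h3
        linarith
      · refine le_trans (Nat.cast_le.mpr (card_le_card fun y hy => ?_)) (s4 c' hc')
        exact mem_filter.mpr ⟨(mem_rem_union.mp (mem_filter.mp hy).1).1, (mem_filter.mp hy).2⟩

theorem case_b (hr : 0 < r) {q : ℕ} (hq : 1 ≤ q) {X : Finset α} {Z : Finset β} (hZ : Z.Nonempty)
    (hX : 4 * q ^ 8 * r ^ 2 ≤ #X) (h : ∀ z ∈ Z, ∀ c,
      ∑ x ∈ nb col X z c, (#{y ∈ low col q X Z z c | col x y = c} : ℝ) ≤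
        #Z / (q ^ 2 * r) * (#(nb col X z c) : ℝ)) :
    ∃ R P, Sys col X Z R P ∧ #R ≤ r ∧ #P ≤ r * (2 * q ^ 4) ∧
      (#(rem col Z R P) : ℝ) ≤ #Z * (4 / q) := by
  have hr0 : (0 : ℝ) < r := by exact_mod_cast hr
  have hq0 : (0 : ℝ) < q := by exact_mod_cast hq
  have hs : (0 : ℝ) < #Z := by exact_mod_cast hZ.card_pos
  have hX0 : X.Nonempty := card_pos.mp (lt_of_lt_of_le (by positivity) hX)
  let F : α → β → Fin r → ℝ := fun x z c => q * r / #Z * #{y ∈ low col q X Z z c | col x y = c} +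
    if 4 * q ^ 7 * r ≤ #(nb col X z c) then 0 else 1
  have hF : ∀ z ∈ Z, ∑ x ∈ X, F x z (col x z) ≤ #X * (2 / q) := by
    intro z hz
    have h1 : ∀ c, ∑ x ∈ nb col X z c, F x z c ≤ #(nb col X z c) / q + 4 * q ^ 7 * r := by
      intro c
      rw [sum_add_distrib, ← mul_sum, sum_const, nsmul_eq_mul]
      refine add_le_add ((mul_le_mul_of_nonneg_left (h z hz c) (by positivity)).trans
        (le_of_eq (by field_simp))) ?_
      split_ifs with h2
      · rw [mul_zero]
        positivity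
      · rw [mul_one]
        exact_mod_cast (not_le.mp h2).le
    have h2 : ∑ x ∈ X, F x z (col x z) = ∑ c, ∑ x ∈ nb col X z c, F x z c := by
      rw [← sum_fiberwise (s := X) (g := fun x => col x z)]
      refine sum_congr rfl fun c _ => sum_congr rfl fun x hx => ?_
      rw [(mem_filter.mp hx).2]
    have h3 : ∑ c, (#(nb col X z c) : ℝ) = #X := fibre_sum (col := fun z x => col x z) z X
    have h4 : (4 * q ^ 8 * r ^ 2 : ℝ) ≤ #X := by exact_mod_cast hX
    have h5 : (r * (4 * q ^ 7 * r) : ℝ) ≤ #X / q := by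
      rw [le_div_iff₀ hq0]
      exact le_trans (le_of_eq (by ring)) h4
    rw [h2]
    refine (sum_le_sum fun c _ => h1 c).trans ?_
    rw [sum_add_distrib, ← sum_div, h3, sum_const, card_univ, Fintype.card_fin, nsmul_eq_mul]
    have : (#X : ℝ) * (2 / q) = #X / q + #X / q := by ring
    linarith
  obtain ⟨x, hx, hΦ⟩ := exists_le_of_sum_le (f := fun x => ∑ z ∈ Z, F x z (col x z))
    (g := fun _ => #Z * (2 / q)) hX0 (by
      rw [sum_comm]
      refine (sum_le_card_nsmul _ _ _ hF).trans (le_of_eq ?_)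
      rw [sum_const, nsmul_eq_mul, nsmul_eq_mul]
      ring)
  have hF0 : ∀ z c, 0 ≤ F x z c := fun z c => add_nonneg (by positivity) (by split_ifs <;> norm_num)
  obtain ⟨z0, hz0⟩ := hZ
  have hroot : ∀ c, ∃ z, ({y ∈ Z | col x y = c} : Finset β).Nonempty →
      z ∈ ({y ∈ Z | col x y = c} : Finset β) ∧
        #{y ∈ Z | col x y = c} * F x z c ≤ ∑ y ∈ Z with col x y = c, F x y c := by
    intro c
    by_cases h0 : ({y ∈ Z | col x y = c} : Finset β).Nonempty
    · obtain ⟨z, z1, z2⟩ := exists_min_image _ (fun y => F x y c) h0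
      exact ⟨z, fun _ => ⟨z1, by
        rw [← nsmul_eq_mul]
        exact card_nsmul_le_sum _ _ _ z2⟩⟩
    · exact ⟨z0, fun h1 => absurd h1 h0⟩
  choose root hroot using hroot
  let C : Finset (Fin r) := {c | (#Z / (q * r) : ℝ) ≤ #{y ∈ Z | col x y = c} ∧
    4 * q ^ 7 * r ≤ #(nb col X (root c) c)}
  have hne : ∀ c, (#Z / (q * r) : ℝ) ≤ #{y ∈ Z | col x y = c} →
      ({y ∈ Z | col x y = c} : Finset β).Nonempty := fun c hc =>
    card_pos.mp (Nat.cast_pos.mp (lt_of_lt_of_le (by positivity) hc))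
  obtain ⟨R, P, s1, s2, s3, s4⟩ := many_trees (col := col) hq (X := X) (Z := Z) x root C
    fun c hc => by
      obtain ⟨c1, c2⟩ := (mem_filter.mp hc).2
      obtain ⟨c3, c4⟩ := mem_filter.mp (hroot c (hne c c1)).1
      exact ⟨c3, c4, c2⟩
  have hC : #C ≤ r := (card_le_univ C).trans (by simp)
  refine ⟨R, P, s1, (card_le_card s2).trans (card_image_le.trans hC),
    s3.trans (Nat.mul_le_mul_right _ hC), ?_⟩
  have h1 : ∀ c, (#{y ∈ rem col Z R P | col x y = c} : ℝ) ≤ #{y ∈ Z | col x y = c} / q +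
      #Z / (q * r) + ∑ y ∈ Z with col x y = c, F x y c := by
    intro c
    have h2 : (#{y ∈ rem col Z R P | col x y = c} : ℝ) ≤ #{y ∈ Z | col x y = c} := by
      exact_mod_cast card_le_card (filter_subset_filter _ (filter_subset _ _))
    have h3 : (0 : ℝ) ≤ #{y ∈ Z | col x y = c} / q := by positivity
    have h4 : (0 : ℝ) ≤ #Z / (q * r) := by positivity
    have h5 : 0 ≤ ∑ y ∈ Z with col x y = c, F x y c := sum_nonneg fun y _ => hF0 y c
    by_cases c1 : (#Z / (q * r) : ℝ) ≤ #{y ∈ Z | col x y = c}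
    · have h6 := (hroot c (hne c c1)).2
      by_cases c2 : 4 * q ^ 7 * r ≤ #(nb col X (root c) c)
      · have h7 := s4 c (mem_filter.mpr ⟨mem_univ _, c1, c2⟩)
        have h8 := mul_le_mul_of_nonneg_right c1 (hF0 (root c) c)
        have h9 : #Z / (q * r) * F x (root c) c =
            #{y ∈ low col q X Z (root c) c | col x y = c} := by
          simp only [F, if_pos c2]
          field_simp
          ring
        linarith
      · have h7 : 1 ≤ F x (root c) c := by
          simp only [F, if_neg c2]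
          exact le_add_of_nonneg_left (by positivity)
        have h8 := mul_le_mul_of_nonneg_left h7 (Nat.cast_nonneg (α := ℝ) #{y ∈ Z | col x y = c})
        linarith
    · linarith
  have h2 : ∑ c, ∑ y ∈ Z with col x y = c, F x y c = ∑ z ∈ Z, F x z (col x z) := by
    rw [← sum_fiberwise (s := Z) (g := fun y => col x y)]
    refine sum_congr rfl fun c _ => sum_congr rfl fun y hy => ?_
    rw [(mem_filter.mp hy).2]
  have h3 := sum_le_sum fun c (_ : c ∈ univ) => h1 c
  rw [fibre_sum, sum_add_distrib, sum_add_distrib, ← sum_div, fibre_sum, h2, sum_const, card_univ,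
    Fintype.card_fin, nsmul_eq_mul] at h3
  have h4 : (r * (#Z / (q * r)) : ℝ) = #Z / q := by field_simp
  have h5 : (#Z : ℝ) * (4 / q) = #Z / q + #Z / q + #Z * (2 / q) := by ring
  linarith

theorem deep_step (hr : 0 < r) {q : ℕ} (hq : 4 ≤ q) {X : Finset α} {Z : Finset β}
    (hZ : Z.Nonempty) (hX : 4 * q ^ 8 * r ^ 2 ≤ #X) :
    ∃ R P t, Sys col X Z R P ∧ 1 ≤ t ∧ t ≤ r ∧ #R ≤ t ∧ #P ≤ t * (2 * q ^ 4) ∧
      (#(rem col Z R P) : ℝ) ≤ #Z * Real.exp (-(Real.log (q / 4) * t / r)) := by
  have hr0 : (0 : ℝ) < r := by exact_mod_cast hr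
  have hq0 : (4 : ℝ) ≤ q := by exact_mod_cast hq
  by_cases h : ∀ z ∈ Z, ∀ c,
      ∑ x ∈ nb col X z c, (#{y ∈ low col q X Z z c | col x y = c} : ℝ) ≤
        #Z / (q ^ 2 * r) * (#(nb col X z c) : ℝ)
  · obtain ⟨R, P, h1, h2, h3, h4⟩ := case_b hr (by omega) hZ hX h
    refine ⟨R, P, r, h1, hr, le_rfl, h2, h3, h4.trans (le_of_eq ?_)⟩
    rw [mul_div_cancel_right₀ _ hr0.ne', Real.exp_neg, Real.exp_log (by positivity), inv_div]
  · push Not at h
    obtain ⟨z, hz, c, h⟩ := h
    obtain ⟨R, P, h1, h2, h3, h4⟩ := case_a hr (by omega) hz h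
    have h5 : q ^ 3 ≤ q ^ 4 := Nat.pow_le_pow_right (by omega) (by norm_num)
    refine ⟨R, P, 1, h1, le_rfl, hr, h2, by omega, h4.trans ?_⟩
    have h6 := Real.log_le_sub_one_of_pos (by positivity : (0 : ℝ) < q / 4)
    refine mul_le_mul_of_nonneg_left (Real.exp_le_exp.mpr (neg_le_neg ?_)) (Nat.cast_nonneg _)
    rw [Nat.cast_one, mul_one]
    exact div_le_div_of_nonneg_right (by linarith) hr0.le

theorem cover_side (hr : 0 < r) {lam : ℝ} (hl : 0 < lam) (J n1 : ℕ)
    (hstep : ∀ (X : Finset α) (Z : Finset β), Z.Nonempty → n1 ≤ #X →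
      ∃ R P t, Sys col X Z R P ∧ 1 ≤ t ∧ t ≤ r ∧ #R ≤ t ∧ #P ≤ t * J ∧
        (#(rem col Z R P) : ℝ) ≤ #Z * Real.exp (-(lam * t / r))) (s : ℕ) :
    ∀ (X : Finset α) (Z : Finset β) (τ : ℝ), #Z = s → 0 ≤ τ → s ≤ r * Real.exp (lam * τ / r) →
      n1 + J * (τ + r) ≤ #X → ∃ R P, Sys col X Z R P ∧ rem col Z R P = ∅ ∧
        #R ≤ τ + 2 * r ∧ #P ≤ J * (τ + r) := by
  have hr0 : (0 : ℝ) < r := by exact_mod_cast hr
  induction s using Nat.strong_induction_on with
  | _ s ih =>
    intro X Z τ hs hτ h1 h2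
    have base : ∀ (X : Finset α) (Z : Finset β), Sys col X Z Z ∅ ∧ rem col Z Z ∅ = ∅ := fun X Z =>
      ⟨⟨Subset.rfl, by simp, by simp, by simp⟩, filter_eq_empty_iff.mpr fun z hz h => h.1 hz⟩
    by_cases hsr : s ≤ r
    · refine ⟨Z, ∅, (base X Z).1, (base X Z).2, ?_,
        by simp only [card_empty, Nat.cast_zero]; positivity⟩
      have : (#Z : ℝ) ≤ r := by exact_mod_cast hs ▸ hsr
      linarith
    · have hJ : (0 : ℝ) ≤ J * (τ + r) := by positivity
      obtain ⟨R, P, t, a1, a2, a3, a4, a5, a6⟩ := hstep X Z (card_pos.mp (by omega))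
        (by exact_mod_cast (by linarith : (n1 : ℝ) ≤ #X))
      have t1 : (1 : ℝ) ≤ t := by exact_mod_cast a2
      have t2 : (t : ℝ) ≤ r := by exact_mod_cast a3
      have b4 : (#R : ℝ) ≤ t := by exact_mod_cast a4
      have b5 : (#P : ℝ) ≤ t * J := by exact_mod_cast a5
      have hs0 : (0 : ℝ) < s := by exact_mod_cast (by omega : 0 < s)
      rw [hs] at a6
      have key : ∃ R' P', Sys col (X \ P.image Prod.fst) (rem col Z R P) R' P' ∧
          rem col (rem col Z R P) R' P' = ∅ ∧ t + #R' ≤ τ + 2 * r ∧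
          t * J + #P' ≤ J * (τ + r) := by
        have c1 : (#(rem col Z R P) : ℝ) ≤ r * Real.exp (lam * (τ - t) / r) := by
          refine a6.trans ((mul_le_mul_of_nonneg_right h1 (Real.exp_pos _).le).trans (le_of_eq ?_))
          rw [mul_assoc, ← Real.exp_add]
          congr 2
          ring
        by_cases ht : t ≤ τ
        · have c2 : #(rem col Z R P) < s := by
            have : Real.exp (-(lam * t / r)) < 1 := Real.exp_lt_one_iff.mpr
              (neg_lt_zero.mpr (by positivity))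
            exact_mod_cast a6.trans_lt (mul_lt_of_lt_one_right hs0 this)
          have c3 : (#X : ℝ) ≤ #(X \ P.image Prod.fst) + #P := by
            have := le_card_sdiff (P.image Prod.fst) X
            have := card_image_le (s := P) (f := Prod.fst)
            exact_mod_cast (by omega)
          obtain ⟨R', P', d1, d2, d3, d4⟩ := ih _ c2 (X \ P.image Prod.fst) _ (τ - t) rfl
            (by linarith) c1 (by linarith)
          exact ⟨R', P', d1, d2, by linarith, by linarith⟩
        · have c2 : Real.exp (lam * (τ - t) / r) ≤ 1 := Real.exp_le_one_iff.mpr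
            (div_nonpos_of_nonpos_of_nonneg (mul_nonpos_of_nonneg_of_nonpos hl.le (by linarith))
              hr0.le)
          have c3 := c1.trans (mul_le_of_le_one_right hr0.le c2)
          refine ⟨_, ∅, (base _ _).1, (base X _).2, by linarith, ?_⟩
          have : (0 : ℝ) ≤ J * (τ + r - t) := mul_nonneg (Nat.cast_nonneg _) (by linarith)
          simp only [card_empty, Nat.cast_zero]
          linarith
      obtain ⟨R', P', d1, d2, d3, d4⟩ := key
      refine ⟨R ∪ R', P ∪ P', a1.union d1 (filter_subset _ _)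
        (disjoint_right.mpr fun z hz => (mem_rem.mp (d1.1 hz)).2.1), ?_, ?_, ?_⟩
      · refine eq_empty_of_forall_notMem fun z hz => ?_
        obtain ⟨z1, z2⟩ := mem_rem_union.mp hz
        have : z ∈ rem col (rem col Z R P) R' P' := mem_rem.mpr ⟨z1, (mem_rem.mp z2).2⟩
        rw [d2] at this
        exact notMem_empty _ this
      · have := (Nat.cast_le (α := ℝ)).mpr (card_union_le R R')
        push_cast at this
        linarith
      · have := (Nat.cast_le (α := ℝ)).mpr (card_union_le P P')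
        push_cast at this
        linarith

end

end Pool.Agent.MP_4e8562_co.H66
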