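import Mathlib
import Pool.Agent.MP_4e8562_co.H66.Step
import Pool.Agent.MP_4e8562_co.H66.Sep

/-!
The upper bound for tree partitions.
-/

namespace Pool.Agent.MP_4e8562_co.H66

open Finset Pool.Agent.MP_4e8562_co.H97 Pool.Agent.MP_4e8562_co.H78

theorem Sys.colour {α β : Type} [DecidableEq β] {r : ℕ} (hr : 0 < r) {col : α → β → Fin r}
    {X : Finset α} {Z R : Finset β} {P : Finset (α × β)} (h : Sys col X Z R P) :
    ∃ κ : β → Fin r, ∀ e ∈ P, col e.1 e.2 = κ e.2 := by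
  have : ∀ z, ∃ c, ∀ e ∈ P, e.2 = z → col e.1 e.2 = c := by
    intro z
    by_cases h0 : ∃ e ∈ P, e.2 = z
    · obtain ⟨e, he, rfl⟩ := h0
      exact ⟨_, fun e' he' q => h.2.2.2 e' he' e he q⟩
    · exact ⟨⟨0, hr⟩, fun e he q => absurd ⟨e, he, q⟩ h0⟩
  choose κ hκ using this
  exact ⟨κ, fun e he => hκ _ e he rfl⟩

theorem two_phase {n m r : ℕ} (hr : 0 < r) (χ : (K n m).edgeSet → Fin r) {R : Finset (Fin m)}
    {P : Finset (Fin n × Fin m)} {R' : Finset (Fin n)} {P' : Finset (Fin m × Fin n)}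
    (h1 : Sys (fun a b => vec χ b a) univ univ R P)
    (h2 : rem (fun a b => vec χ b a) univ R P = ∅)
    (h3 : Sys (vec χ) (univ \ R) (univ \ P.image Prod.fst) R' P')
    (h4 : rem (vec χ) (univ \ P.image Prod.fst) R' P' = ∅) : Part (K n m) χ (#R + #R') := by
  classical
  obtain ⟨κ, hκ⟩ := h1.colour hr
  obtain ⟨κ', hκ'⟩ := h3.colour hr
  have hA : ∀ a, ∃ ρ : Fin n ⊕ Fin m, (∀ e ∈ P, e.1 = a → ρ = Sum.inr e.2) ∧
      (a ∈ R' → ρ = Sum.inl a) ∧ ((∃ e ∈ P, e.1 = a) ∨ a ∈ R' ∨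
        ∃ e ∈ P', ρ = Sum.inl e.2 ∧ vec χ e.1 a = vec χ e.1 e.2) := by
    intro a
    by_cases c1 : ∃ e ∈ P, e.1 = a
    · obtain ⟨e, he, rfl⟩ := c1
      exact ⟨Sum.inr e.2, fun e' he' q => by rw [h1.2.2.1 e' he' e he q],
        fun h => absurd (mem_image_of_mem _ he) (mem_sdiff.mp (h3.1 h)).2, Or.inl ⟨e, he, rfl⟩⟩
    · by_cases c2 : a ∈ R'
      · exact ⟨Sum.inl a, fun e he q => absurd ⟨e, he, q⟩ c1, fun _ => rfl, Or.inr (Or.inl c2)⟩
      · have := eq_empty_iff_forall_notMem.mp h4 a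
        rw [mem_rem] at this
        push Not at this
        obtain ⟨e, he, q⟩ := this (mem_sdiff.mpr ⟨mem_univ _, fun h => c1 (mem_image.mp h)⟩) c2
        exact ⟨Sum.inl e.2, fun e he q => absurd ⟨e, he, q⟩ c1, fun h => absurd h c2,
          Or.inr (Or.inr ⟨e, he, rfl, q⟩)⟩
  have hB : ∀ b, ∃ ρ : Fin n ⊕ Fin m, (∀ e ∈ P', e.1 = b → ρ = Sum.inl e.2) ∧
      (b ∈ R → ρ = Sum.inr b) ∧ ((∃ e ∈ P', e.1 = b) ∨ b ∈ R ∨
        ∃ e ∈ P, ρ = Sum.inr e.2 ∧ vec χ b e.1 = vec χ e.2 e.1) := by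
    intro b
    by_cases c1 : ∃ e ∈ P', e.1 = b
    · obtain ⟨e, he, rfl⟩ := c1
      exact ⟨Sum.inl e.2, fun e' he' q => by rw [h3.2.2.1 e' he' e he q],
        fun h => absurd h (mem_sdiff.mp (h3.2.1 e he).1).2, Or.inl ⟨e, he, rfl⟩⟩
    · by_cases c2 : b ∈ R
      · exact ⟨Sum.inr b, fun e he q => absurd ⟨e, he, q⟩ c1, fun _ => rfl, Or.inr (Or.inl c2)⟩
      · have := eq_empty_iff_forall_notMem.mp h2 b
        rw [mem_rem] at this
        push Not at this
        obtain ⟨e, he, q⟩ := this (mem_univ _) c2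
        exact ⟨Sum.inr e.2, fun e he q => absurd ⟨e, he, q⟩ c1, fun h => absurd h c2,
          Or.inr (Or.inr ⟨e, he, rfl, q⟩)⟩
  choose ρ a1 a2 a3 using hA
  choose σ b1 b2 b3 using hB
  let lb : Fin n ⊕ Fin m → Fin n ⊕ Fin m := Sum.elim ρ σ
  let cl : Fin n ⊕ Fin m → Fin r := Sum.elim κ' κ
  let E : Fin n ⊕ Fin m → Fin n ⊕ Fin m → Prop := fun u v =>
    lb u = lb v ∧ ∃ he : (K n m).Adj u v, χ ⟨s(u, v), he⟩ = cl (lb u)
  have e1 : ∀ e ∈ P, E (Sum.inl e.1) (Sum.inr e.2) := fun e he =>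
    ⟨(a1 _ e he rfl).trans (b2 _ (h1.2.1 e he).2).symm, edge1 χ _ _ (by
      rw [show lb (Sum.inl e.1) = _ from a1 _ e he rfl]
      exact hκ e he)⟩
  have e2 : ∀ e ∈ P', E (Sum.inr e.1) (Sum.inl e.2) := fun e he =>
    ⟨(b1 _ e he rfl).trans (a2 _ (h3.2.1 e he).2).symm, edge2 χ _ _ (by
      rw [show lb (Sum.inr e.1) = _ from b1 _ e he rfl]
      exact hκ' e he)⟩
  refine (part_of_reach (K n m) χ lb cl id (R.image Sum.inr ∪ R'.image Sum.inl) ?_ ?_).mono
    ((card_union_le _ _).trans (add_le_add card_image_le card_image_le))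
  · rintro (a | b)
    · rcases a3 a with ⟨e, he, q⟩ | h | ⟨e, he, q, -⟩
      · exact mem_union_left _ (mem_image.mpr ⟨_, (h1.2.1 e he).2, (a1 a e he q).symm⟩)
      · exact mem_union_right _ (mem_image.mpr ⟨_, h, (a2 a h).symm⟩)
      · exact mem_union_right _ (mem_image.mpr ⟨_, (h3.2.1 e he).2, q.symm⟩)
    · rcases b3 b with ⟨e, he, q⟩ | h | ⟨e, he, q, -⟩
      · exact mem_union_right _ (mem_image.mpr ⟨_, (h3.2.1 e he).2, (b1 b e he q).symm⟩)
      · exact mem_union_left _ (mem_image.mpr ⟨_, h, (b2 b h).symm⟩)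
      · exact mem_union_left _ (mem_image.mpr ⟨_, (h1.2.1 e he).2, q.symm⟩)
  · rintro (a | b)
    · change Relation.ReflTransGen E (Sum.inl a) (ρ a)
      rcases a3 a with ⟨e, he, rfl⟩ | h | ⟨e, he, q, q'⟩
      · rw [a1 _ e he rfl]
        exact .single (e1 e he)
      · rw [a2 a h]
      · rw [q]
        refine .head (b := Sum.inr e.1) ⟨q.trans (b1 _ e he rfl).symm, edge1 χ _ _ ?_⟩
          (.single (e2 e he))
        rw [show lb (Sum.inl a) = _ from q, q']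
        exact hκ' e he
    · change Relation.ReflTransGen E (Sum.inr b) (σ b)
      rcases b3 b with ⟨e, he, rfl⟩ | h | ⟨e, he, q, q'⟩
      · rw [b1 _ e he rfl]
        exact .single (e2 e he)
      · rw [b2 b h]
      · rw [q]
        refine .head (b := Sum.inl e.1) ⟨q.trans (a1 _ e he rfl).symm, edge2 χ _ _ ?_⟩
          (.single (e1 e he))
        rw [show lb (Sum.inr b) = _ from q, q']
        exact hκ e he

/-- the progress property for both sides -/
def Prog (r : ℕ) (lam : ℝ) (J n1 : ℕ) : Prop :=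
  ∀ (a b : ℕ) (col : Fin a → Fin b → Fin r) (X : Finset (Fin a)) (Z : Finset (Fin b)),
    Z.Nonempty → n1 ≤ #X → ∃ R P t, Sys col X Z R P ∧ 1 ≤ t ∧ t ≤ r ∧ #R ≤ t ∧ #P ≤ t * J ∧
      (#(rem col Z R P) : ℝ) ≤ #Z * Real.exp (-(lam * t / r))

theorem prog_star {r : ℕ} (hr : 0 < r) : Prog r 1 1 1 := by
  intro a b col X Z hZ hX
  obtain ⟨R, P, h1, h2, h3, h4⟩ := star_step (col := col) hr (card_pos.mp hX) hZ
  exact ⟨R, P, 1, h1, le_rfl, hr, h2, h3, by simpa using h4⟩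

theorem prog_deep {r q : ℕ} (hr : 0 < r) (hq : 4 ≤ q) :
    Prog r (Real.log (q / 4)) (2 * q ^ 4) (4 * q ^ 8 * r ^ 2) :=
  fun _ _ _ _ _ hZ hX => deep_step hr hq hZ hX

theorem tp_le_of_prog {n m r J n1 : ℕ} {lam τ : ℝ} (hr : 0 < r) (hl : 0 < lam) (hτ : 0 ≤ τ)
    (h : Prog r lam J n1) (hnm : n ≤ m) (hm : m ≤ r * Real.exp (lam * τ / r))
    (hn : n1 + J * (τ + r) + (τ + 2 * r) ≤ n) : (tp r (K n m) : ℝ) ≤ 2 * τ + 4 * r := by
  have hnm' : (n : ℝ) ≤ m := by exact_mod_cast hnm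
  have hr0 : (0 : ℝ) ≤ r := Nat.cast_nonneg r
  have key : ∀ χ : (K n m).edgeSet → Fin r, Part (K n m) χ ⌊2 * τ + 4 * r⌋₊ := by
    intro χ
    obtain ⟨R, P, h1, h2, h3, h4⟩ := cover_side (col := fun a b => vec χ b a) hr hl J n1
      (h _ _ _) m univ univ τ (by simp) hτ hm (by simp only [card_univ, Fintype.card_fin]; linarith)
    obtain ⟨R', P', k1, k2, k3, k4⟩ := cover_side (col := vec χ) hr hl J n1
      (h _ _ _) _ (univ \ R) (univ \ P.image Prod.fst) τ rfl hτ (by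
        refine le_trans (le_trans ?_ hnm') hm
        exact_mod_cast (card_le_univ _).trans (by simp)) (by
        rw [card_sdiff_of_subset (subset_univ _), Nat.cast_sub (card_le_card (subset_univ _)),
          card_univ, Fintype.card_fin]
        linarith)
    refine (two_phase hr χ h1 h2 k1 k2).mono (Nat.le_floor ?_)
    push_cast
    linarith
  exact le_trans (Nat.cast_le.mpr (Nat.sInf_le key)) (Nat.floor_le (by positivity))

theorem tp_le_avg {n m r : ℕ} (hr : 0 < r) :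
    (tp r (K n m) : ℝ) ≤ n + m * Real.exp (-(n / r)) := by
  have hr0 : (0 : ℝ) < r := by exact_mod_cast hr
  have key : ∀ χ : (K n m).edgeSet → Fin r, Part (K n m) χ (n + ⌊m * Real.exp (-(n / r))⌋₊) := by
    intro χ
    have : Nonempty (Fin n → Fin r) := ⟨fun _ => ⟨0, hr⟩⟩
    obtain ⟨c, -, hc⟩ := exists_le_of_sum_le (s := univ) (f := fun c => (av (vec χ) c : ℝ))
      (g := fun _ => m * Real.exp (-(n / r))) univ_nonempty (by
        rw [← Nat.cast_sum, sum_av, sum_const, card_univ, Fintype.card_fun, Fintype.card_fin,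
          Fintype.card_fin, nsmul_eq_mul, mul_comm (m : ℝ), ← mul_assoc]
        push_cast [Nat.cast_sub hr]
        refine mul_le_mul_of_nonneg_right ?_ (Nat.cast_nonneg _)
        have h1 : Real.exp (-(n / r)) = Real.exp (-(1 / r)) ^ n := by
          rw [← Real.exp_nat_mul]
          congr 1
          ring
        have h2 := mul_le_mul_of_nonneg_left (Real.add_one_le_exp (-(1 / r : ℝ))) hr0.le
        have h3 : (r : ℝ) * (-(1 / r) + 1) = r - 1 := by field_simp; ring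
        rw [h1, ← mul_pow]
        exact pow_le_pow_left₀ (by rw [sub_nonneg]; exact_mod_cast hr) (h3 ▸ h2) n)
    exact (star_part hr χ c).mono (Nat.add_le_add_left (Nat.le_floor hc) _)
  refine le_trans (Nat.cast_le.mpr (Nat.sInf_le key)) ?_
  push_cast
  exact add_le_add_right (Nat.floor_le (by positivity)) _

theorem min_le_tp {n m r : ℕ} (hr : 0 < r) : min n r ≤ tp r (K n m) := by
  classical
  have : NeZero r := ⟨hr.ne'⟩
  obtain ⟨χ, hχ⟩ := exists_colouring (n := n) (m := m) fun _ a => Fin.ofNat r a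
  obtain ⟨φ, hφ⟩ := lower_lab hr χ (tp_part hr χ)
  have h1 := hφ (fun a => Fin.ofNat r a) fun a a' b e1 e2 _ => by
    rw [hχ] at e1 e2
    exact e1.trans e2.symm
  refine le_trans ?_ (le_of_add_le_left h1)
  rw [← Fintype.card_fin (min n r), ← card_univ]
  refine card_le_card_of_injOn (fun i => Fin.castLE (min_le_right _ _) i) (fun i _ => ?_)
    (Fin.castLE_injective _).injOn
  refine mem_coe.mpr (mem_image.mpr ⟨Fin.castLE (min_le_left _ _) i, mem_univ _, Fin.ext ?_⟩)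
  exact Nat.mod_eq_of_lt (i.2.trans_le (min_le_right _ _))

end Pool.Agent.MP_4e8562_co.H66
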