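import Mathlib
import Pool.Agent.MP_4e8562_co.H66.Upper

/-!
The order of magnitude of the tree partition number.
-/

namespace Pool.Agent.MP_4e8562_co.H66

open Finset Pool.Agent.MP_4e8562_co.H97 Pool.Agent.MP_4e8562_co.H78

theorem log_le_lin {x : ℝ} (hx : 0 < x) : Real.log x ≤ 4 + x / 100 := by
  have h1 := Real.log_le_sub_one_of_pos (by positivity : 0 < x / 100)
  have h2 : Real.log 100 ≤ 5 := by
    rw [Real.log_le_iff_le_exp (by norm_num)]
    have : Real.exp 5 = Real.exp 1 ^ 5 := by rw [← Real.exp_nat_mul]; norm_num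
    rw [this]
    exact le_trans (by norm_num)
      (pow_le_pow_left₀ (by norm_num : (0 : ℝ) ≤ 2.7) (by linarith [Real.exp_one_gt_d9]) 5)
  rw [Real.log_div hx.ne' (by norm_num)] at h1
  linarith

theorem upper_deep {r n m : ℕ} (hr : 0 < r) (hnm : n ≤ m) (hn : 8 * 12 ^ 8 * r ^ 2 ≤ n)
    (hL : Real.log (Real.exp 1 + m / r) ≤ Real.log (Real.exp 1 + n / r) + r) :
    (tp r (K n m) : ℝ) ≤ 52 * (r * Real.log (Real.exp 1 + m / r) /
      Real.log (Real.exp 1 + n / r ^ 2)) + 4 * r := by
  classical
  have hr1 : (1 : ℝ) ≤ r := by exact_mod_cast hr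
  have he := Real.exp_one_lt_d9
  obtain ⟨q, q1, q2, q3⟩ : ∃ q, 12 ≤ q ∧ 8 * q ^ 8 * r ^ 2 ≤ n ∧ n < 8 * (q + 1) ^ 8 * r ^ 2 := by
    have hex : ∃ q, n < 8 * (q + 13) ^ 8 * r ^ 2 := by
      refine ⟨n, ?_⟩
      have h1 : n + 13 ≤ (n + 13) ^ 8 := Nat.le_self_pow (by norm_num) _
      have h2 : 8 * (n + 13) ^ 8 ≤ 8 * (n + 13) ^ 8 * r ^ 2 := Nat.le_mul_of_pos_right _ (by positivity)
      omega
    refine ⟨Nat.find hex + 12, by omega, ?_, Nat.find_spec hex⟩
    rcases Nat.eq_zero_or_pos (Nat.find hex) with h | h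
    · rw [h]
      exact hn
    · have := Nat.find_min hex (Nat.sub_lt h one_pos)
      rw [show Nat.find hex - 1 + 13 = Nat.find hex + 12 by omega] at this
      exact not_lt.mp this
  have p1 : (12 : ℝ) ≤ q := by exact_mod_cast q1
  have p2 : (8 * q ^ 8 * r ^ 2 : ℝ) ≤ n := by exact_mod_cast q2
  have p3 : (n : ℝ) < 8 * (q + 1) ^ 8 * r ^ 2 := by exact_mod_cast q3
  set L := Real.log (Real.exp 1 + m / r) with hLdef
  set l := Real.log (Real.exp 1 + n / r ^ 2) with hl
  set lam := Real.log (q / 4 : ℝ) with hlam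
  have hL1 : 1 ≤ L := one_le_log (by positivity)
  have hl1 : 1 ≤ l := one_le_log (by positivity)
  have hlam1 : 1 ≤ lam := by
    rw [hlam, Real.le_log_iff_exp_le (by positivity)]
    linarith
  have h1 : l ≤ 26 * lam := by
    have a1 : (q + 1 : ℝ) ≤ (q / 4) ^ 3 := by nlinarith [mul_nonneg (sub_nonneg.mpr p1) (sq_nonneg (q : ℝ))]
    have a2 := pow_le_pow_left₀ (by positivity) a1 8
    have a3 : (n / r ^ 2 : ℝ) ≤ 8 * (q + 1) ^ 8 := by
      rw [div_le_iff₀ (by positivity)]
      exact p3.le
    have a4 : (q + 1 : ℝ) ≤ (q + 1) ^ 8 := le_self_pow₀ (by linarith) (by norm_num)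
    have a5 : (9 : ℝ) ≤ (q / 4) ^ 2 := by nlinarith
    have a6 := mul_le_mul a5 a2 (by positivity) (by positivity)
    rw [← pow_mul, ← pow_add] at a6
    have a7 := Real.log_le_log (by positivity)
      (by linarith : Real.exp 1 + n / r ^ 2 ≤ (q / 4 : ℝ) ^ (2 + 3 * 8))
    rw [Real.log_pow, ← hlam] at a7
    exact a7.trans (le_of_eq (by norm_num))
  have hτ : r * L / lam ≤ r * L := div_le_self (by positivity) hlam1
  have h2 := tp_le_of_prog (τ := r * L / lam) hr (by linarith) (by positivity)
    (prog_deep hr (by omega : 4 ≤ q)) hnm (by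
      rw [mul_div_cancel₀ _ (by linarith), mul_div_cancel_left₀ _ (by linarith), hLdef,
        Real.exp_log (by positivity), mul_add, mul_div_cancel₀ _ (by linarith)]
      exact le_add_of_nonneg_left (by positivity)) (by
      have b1 : (12 : ℝ) ^ 4 ≤ q ^ 4 := pow_le_pow_left₀ (by norm_num) p1 4
      set w : ℝ := q ^ 4 * r with hw
      have b2 : 12 ^ 4 * (r : ℝ) ≤ w := mul_le_mul_of_nonneg_right b1 (by linarith)
      have b3 : 8 * w ^ 2 ≤ n := le_trans (le_of_eq (by rw [hw]; ring)) p2
      have b4 : (n : ℝ) ≤ 16 * w ^ 2 := by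
        have c1 : ((q : ℝ) + 1) ^ 8 ≤ (13 / 12 * q) ^ 8 :=
          pow_le_pow_left₀ (by positivity) (by linarith) 8
        have c2 : (13 / 12 * q : ℝ) ^ 8 ≤ 2 * q ^ 8 := by
          rw [mul_pow]
          exact mul_le_mul_of_nonneg_right (by norm_num) (by positivity)
        have c3 := mul_le_mul_of_nonneg_right (c1.trans c2) (by positivity : (0 : ℝ) ≤ 8 * r ^ 2)
        have c4 : 16 * w ^ 2 = 2 * q ^ 8 * (8 * r ^ 2) := by rw [hw]; ring
        linarith
      have b5 : Real.log (Real.exp 1 + n / r) ≤ 2 * (4 + 5 * w / 100) := by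
        have c1 : (n / r : ℝ) ≤ n := div_le_self (by positivity) hr1
        have c2 := Real.log_le_log (by positivity)
          (by nlinarith : Real.exp 1 + n / r ≤ (5 * w) ^ 2)
        rw [Real.log_pow] at c2
        have c3 := log_le_lin (by linarith : 0 < 5 * w)
        push_cast at c2
        linarith
      have b6 : 3 * w * (L + 1) ≤ 3 * w * (4 / 3 * w) :=
        mul_le_mul_of_nonneg_left (by linarith) (by linarith)
      have b7 : (q : ℝ) ^ 4 * (r * L / lam) ≤ q ^ 4 * (r * L) :=
        mul_le_mul_of_nonneg_left hτ (by positivity)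
      have b8 : r * L ≤ w * L := mul_le_mul_of_nonneg_right (by linarith) (by linarith)
      have b9 : (q : ℝ) ^ 4 * (r * L) = w * L := by rw [hw]; ring
      have b10 : (q : ℝ) ^ 8 * r ^ 2 = w ^ 2 := by rw [hw]; ring
      push_cast
      nlinarith)
  have h3 : r * L / lam ≤ 26 * (r * L / l) := by
    rw [← mul_div_assoc, div_le_div_iff₀ (by linarith) (by linarith)]
    nlinarith [mul_le_mul_of_nonneg_left h1 (by positivity : 0 ≤ r * L)]
  linarith

theorem order {r n m : ℕ} (hr : 0 < r) (hnm : n ≤ m)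
    (hm : (m : ℝ) ≤ n * Real.exp (min (n / r : ℝ) r)) :
    1 / 20000 * ((min n r : ℕ) * Real.log (Real.exp 1 + m / r) / Real.log (Real.exp 1 + n / r ^ 2))
      ≤ tp r (K n m) ∧ (tp r (K n m) : ℝ) ≤
    300 * ((min n r : ℕ) * Real.log (Real.exp 1 + m / r) / Real.log (Real.exp 1 + n / r ^ 2)) := by
  have hr1 : (1 : ℝ) ≤ r := by exact_mod_cast hr
  have he := Real.exp_one_gt_d9
  have he' := Real.exp_one_lt_d9
  have hnm' : (n : ℝ) ≤ m := by exact_mod_cast hnm
  have hlΛ := log_sq_le (n := n) hr
  set L := Real.log (Real.exp 1 + m / r) with hLdef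
  set Λ := Real.log (Real.exp 1 + n / r) with hΛ
  set l := Real.log (Real.exp 1 + n / r ^ 2) with hl
  have hl1 : 1 ≤ l := one_le_log (by positivity)
  have hΛL : Λ ≤ L := Real.log_le_log (by positivity) (by gcongr)
  have hL : L ≤ Λ + min (n / r : ℝ) r := by
    rw [hLdef, Real.log_le_iff_le_exp (by positivity), Real.exp_add, hΛ,
      Real.exp_log (by positivity), add_mul]
    have h1 : 1 ≤ Real.exp (min (n / r : ℝ) r) := Real.one_le_exp (by positivity)
    refine add_le_add (le_mul_of_one_le_right (by positivity) h1) ?_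
    rw [div_mul_eq_mul_div]
    gcongr
  have hL' : L ≤ Λ + r := hL.trans (add_le_add_right (min_le_right _ _) _)
  have hρ : 1 ≤ L / l := by rw [one_le_div (by linarith)]; linarith
  have h2n : (tp r (K n m) : ℝ) ≤ 2 * n := by
    refine (tp_le_avg hr).trans ?_
    have h1 : Real.exp (min (n / r : ℝ) r) * Real.exp (-(n / r)) ≤ 1 := by
      rw [← Real.exp_add, Real.exp_le_one_iff]
      linarith [min_le_left (n / r : ℝ) r]
    have h2 := mul_le_mul_of_nonneg_right hm (Real.exp_pos (-(n / r))).le
    have h3 := mul_le_mul_of_nonneg_left h1 (Nat.cast_nonneg (α := ℝ) n)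
    linarith
  have hmin : ((min n r : ℕ) : ℝ) ≤ tp r (K n m) := by exact_mod_cast min_le_tp hr
  rw [mul_div_assoc]
  constructor
  · by_cases h : L / l ≤ 20000
    · nlinarith [mul_le_mul_of_nonneg_left h (Nat.cast_nonneg (α := ℝ) (min n r))]
    · have h1 : 20000 * l < L := by rwa [not_le, lt_div_iff₀ (by linarith)] at h
      have h2 : L / l / 20000 * l = L / 20000 := by field_simp
      have h3 : Λ ≤ Real.log r + l := by
        rw [hl, ← Real.log_mul (by linarith) (by positivity)]
        refine Real.log_le_log (by positivity) ?_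
        have : (r : ℝ) * (n / r ^ 2) = n / r := by field_simp
        nlinarith
      have h4 := log_le_lin (by linarith : (0 : ℝ) < r)
      have h5 : L - 1 ≤ Real.log (m / r) := by
        have a1 : Real.exp 1 * Real.exp 1 ≤ Real.exp 1 + m / r := by
          rw [← Real.exp_add, ← Real.le_log_iff_exp_le (by positivity)]
          linarith
        have a2 : (0 : ℝ) < m / r := by nlinarith
        have a3 := Real.log_le_log (by positivity)
          (by nlinarith : Real.exp 1 + m / r ≤ Real.exp 1 * (m / r))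
        rw [Real.log_mul (by positivity) a2.ne', Real.log_exp] at a3
        linarith
      have h6 := tp_gt (C := L / l / 20000) hr (by linarith) hnm
        (by rw [mul_assoc, h2]; linarith) (by linarith) (by rw [mul_assoc, h2]; linarith)
      have h7 : ((min n r : ℕ) : ℝ) ≤ r := by exact_mod_cast min_le_right n r
      nlinarith
  · rcases le_total n r with h | h
    · rw [min_eq_left h]
      nlinarith [Nat.cast_nonneg (α := ℝ) n]
    · rw [min_eq_right h]
      by_cases hn : 8 * 12 ^ 8 * r ^ 2 ≤ n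
      · have h1 := upper_deep hr hnm hn hL'
        rw [← hLdef, ← hl, mul_div_assoc] at h1
        nlinarith
      · have h1 : l ≤ 23 := by
          have a1 : (n / r ^ 2 : ℝ) ≤ 8 * 12 ^ 8 := by
            rw [div_le_iff₀ (by positivity)]
            exact_mod_cast (not_le.mp hn).le
          have a2 : Real.exp 23 = Real.exp 1 ^ 23 := by rw [← Real.exp_nat_mul]; norm_num
          have a3 : (2.7 : ℝ) ^ 23 ≤ Real.exp 1 ^ 23 :=
            pow_le_pow_left₀ (by norm_num) (by linarith) 23
          have a4 : (8 * 12 ^ 8 + 3 : ℝ) ≤ 2.7 ^ 23 := by norm_num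
          rw [hl, Real.log_le_iff_le_exp (by positivity), a2]
          linarith
        have h2 : r * L ≤ 23 * (r * (L / l)) := by
          have : L / l * l = L := by field_simp
          nlinarith [mul_le_mul_of_nonneg_left h1 (by positivity : 0 ≤ r * (L / l))]
        have h3 : (r : ℝ) ≤ r * L := le_mul_of_one_le_right (by linarith) (by linarith)
        by_cases h4 : ((1 : ℕ) : ℝ) + (1 : ℕ) * (r * L + r) + (r * L + 2 * r) ≤ n
        · have h5 := tp_le_of_prog (τ := r * L) hr one_pos (by linarith) (prog_star hr) hnm (by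
            rw [one_mul, mul_div_cancel_left₀ _ (by linarith), hLdef,
              Real.exp_log (by positivity), mul_add, mul_div_cancel₀ _ (by linarith)]
            exact le_add_of_nonneg_left (by positivity)) h4
          linarith
        · push_cast at h4
          linarith

end Pool.Agent.MP_4e8562_co.H66
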